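import Pool.Agent.H89P.Defs

set_option autoImplicit false

namespace Pool.Agent.H89P

open Finset

variable {α Φ ι : Type} [DecidableEq α] [Fintype Φ] [DecidableEq Φ] [Fintype ι] [DecidableEq ι]

omit [Fintype Φ] in
theorem fdeg_sdiff (s : Bool → α → Φ) {C Z : Finset α} (h : Z ⊆ C) (φ : Φ) :
    fdeg s C φ = fdeg s (C \ Z) φ + fdeg s Z φ :=
  (Finset.sum_sdiff h).symm

omit [DecidableEq α] [Fintype Φ] in
theorem fdeg_mono (s : Bool → α → Φ) {C Z : Finset α} (h : Z ⊆ C) (φ : Φ) :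
    fdeg s Z φ ≤ fdeg s C φ :=
  Finset.sum_le_sum_of_subset h

omit [Fintype Φ] in
theorem fdeg_symmDiff (s : Bool → α → Φ) (C C' : Finset α) (φ : Φ) :
    Even (fdeg s (symmDiff C C') φ) ↔ Even (fdeg s C φ + fdeg s C' φ) := by
  have h1 : fdeg s C φ = fdeg s (C \ C') φ + fdeg s (C ∩ C') φ := by
    have := fdeg_sdiff s (Finset.inter_subset_left : C ∩ C' ⊆ C) φ
    rwa [Finset.sdiff_inter_self_left] at this
  have h2 : fdeg s C' φ = fdeg s (C' \ C) φ + fdeg s (C ∩ C') φ := by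
    have := fdeg_sdiff s (Finset.inter_subset_right : C ∩ C' ⊆ C') φ
    rwa [Finset.sdiff_inter_self_right] at this
  have h3 : fdeg s (symmDiff C C') φ = fdeg s (C \ C') φ + fdeg s (C' \ C) φ := by
    have h4 : symmDiff C C' = (C \ C') ∪ (C' \ C) := rfl
    unfold fdeg
    rw [h4, Finset.sum_union]
    exact disjoint_sdiff_sdiff
  rw [h1, h2, h3]
  constructor
  · intro h
    have : fdeg s (C \ C') φ + fdeg s (C ∩ C') φ + (fdeg s (C' \ C) φ + fdeg s (C ∩ C') φ) =
        fdeg s (C \ C') φ + fdeg s (C' \ C) φ + 2 * fdeg s (C ∩ C') φ := by ring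
    rw [this]
    exact h.add (even_two_mul _)
  · intro h
    have h5 : fdeg s (C \ C') φ + fdeg s (C ∩ C') φ + (fdeg s (C' \ C) φ + fdeg s (C ∩ C') φ) =
        fdeg s (C \ C') φ + fdeg s (C' \ C) φ + 2 * fdeg s (C ∩ C') φ := by ring
    rw [h5] at h
    exact (Nat.even_add.1 h).2 (even_two_mul _)

omit [Fintype Φ] in
theorem even_symmDiff {s : Bool → α → Φ} {C C' : Finset α} (h : EvenSet s C) (h' : EvenSet s C') :
    EvenSet s (symmDiff C C') := fun φ => (fdeg_symmDiff s C C' φ).2 ((h φ).add (h' φ))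

omit [DecidableEq α] in
theorem sum_fdeg (s : Bool → α → Φ) (C : Finset α) : ∑ φ, fdeg s C φ = 2 * C.card := by
  unfold fdeg
  rw [Finset.sum_comm]
  have h1 : ∀ e ∈ C, ∑ φ, inc s e φ = 2 := by
    intro e _
    unfold inc
    rw [Finset.sum_add_distrib, Finset.sum_ite_eq, Finset.sum_ite_eq]
    simp
  rw [Finset.sum_congr rfl h1, Finset.sum_const, smul_eq_mul, mul_comm]

omit [DecidableEq α] [Fintype Φ] in
/-- number of sides at `φ`, as a cardinality -/
theorem fdeg_card (s : Bool → α → Φ) (X : Finset α) (φ : Φ) :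
    fdeg s X φ = ((X ×ˢ (univ : Finset Bool)).filter fun d => s d.2 d.1 = φ).card := by
  rw [Finset.card_filter, Finset.sum_product]
  unfold fdeg
  refine Finset.sum_congr rfl fun e _ => ?_
  unfold inc
  rw [Fintype.sum_bool, add_comm]

end Pool.Agent.H89P
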