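import Pool.Agent.H89P.Defs

set_option autoImplicit false

namespace Pool.Agent.H89P

open Finset

variable {α ι : Type} [DecidableEq α] [Fintype ι] [DecidableEq ι]

private instance clsFinite (E X : Finset α) (p q : α → ι) : Finite (Cls E X p q) :=
  inferInstanceAs (Finite (Quot _))

/-- the class of a vertex -/
private def mkC (E X : Finset α) (p q : α → ι) (v : ι) : Cls E X p q := Quot.mk _ v

omit [Fintype ι] [DecidableEq ι] in
private theorem mkC_eq {E X : Finset α} {p q : α → ι} {e : α} (he : e ∈ E) (hX : e ∉ X) :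
    mkC E X p q (p e) = mkC E X p q (q e) :=
  Quot.sound ⟨e, Finset.mem_sdiff.2 ⟨he, hX⟩, rfl, rfl⟩

/-- a cut inside `X` is given by a function on the classes -/
private theorem cut_fun {E X : Finset α} {p q : α → ι} {A : Finset ι} (h : cutE E p q A ⊆ X) :
    ∃ H : Cls E X p q → Bool, (∀ v, H (mkC E X p q v) = decide (v ∈ A)) ∧
      ∀ e, e ∈ cutE E p q A ↔ e ∈ E ∧ H (mkC E X p q (p e)) ≠ H (mkC E X p q (q e)) := by
  have hl : ∀ a b : ι, (∃ e ∈ E \ X, p e = a ∧ q e = b) → decide (a ∈ A) = decide (b ∈ A) := by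
    rintro a b ⟨e, he, rfl, rfl⟩
    rw [Finset.mem_sdiff] at he
    have h1 : e ∉ cutE E p q A := fun h2 => he.2 (h h2)
    unfold cutE at h1
    rw [Finset.mem_filter] at h1
    have h2 : (p e ∈ A ↔ q e ∈ A) := by
      by_contra h3
      apply h1
      refine ⟨he.1, ?_⟩
      tauto
    exact decide_eq_decide.2 h2
  refine ⟨Quot.lift (fun v => decide (v ∈ A)) hl, fun v => rfl, ?_⟩
  intro e
  unfold cutE
  rw [Finset.mem_filter]
  refine and_congr_right fun _ => ?_
  change _ ↔ decide (p e ∈ A) ≠ decide (q e ∈ A)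
  by_cases h1 : p e ∈ A <;> by_cases h2 : q e ∈ A <;> simp [h1, h2]

private theorem bool_aux1 : ∀ x1 x2 x3 x4 b b' : Bool, xor x1 b = xor x3 b' →
    xor x2 b = xor x4 b' → (x1 ≠ x2 ↔ x3 ≠ x4) := by decide

private theorem bool_aux2 : ∀ x b b' : Bool, xor x b = xor x b' → b = b' := by decide

open Classical in
theorem card_cuts_le (E : Finset α) (p q : α → ι) {X : Finset α} [Nonempty ι] :
    (X.powerset.filter fun C => ∃ A : Finset ι, C = cutE E p q A).card * 2 ≤
      2 ^ Nat.card (Cls E X p q) := by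
  haveI : Fintype (Cls E X p q) := Fintype.ofFinite _
  have key : ∀ C ∈ X.powerset.filter fun C => ∃ A : Finset ι, C = cutE E p q A,
      ∃ H : Cls E X p q → Bool,
        ∀ e, e ∈ C ↔ e ∈ E ∧ H (mkC E X p q (p e)) ≠ H (mkC E X p q (q e)) := by
    intro C hC
    rw [Finset.mem_filter, Finset.mem_powerset] at hC
    obtain ⟨hCX, A, rfl⟩ := hC
    obtain ⟨H, _, hH⟩ := cut_fun hCX
    exact ⟨H, hH⟩
  choose! H hH using key
  have hcard : ((X.powerset.filter fun C => ∃ A : Finset ι, C = cutE E p q A) ×ˢ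
      (univ : Finset Bool)).card ≤ (univ : Finset (Cls E X p q → Bool)).card := by
    apply Finset.card_le_card_of_injOn (fun z : Finset α × Bool => fun c => xor (H z.1 c) z.2)
      (fun _ _ => Finset.mem_coe.2 (Finset.mem_univ _))
    rintro ⟨C, b⟩ hC ⟨C', b'⟩ hC' heq
    have hC1 : C ∈ X.powerset.filter fun C => ∃ A : Finset ι, C = cutE E p q A :=
      (Finset.mem_product.1 (Finset.mem_coe.1 hC)).1
    have hC1' : C' ∈ X.powerset.filter fun C => ∃ A : Finset ι, C = cutE E p q A :=
      (Finset.mem_product.1 (Finset.mem_coe.1 hC')).1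
    have h1 : ∀ c, xor (H C c) b = xor (H C' c) b' := fun c => congrFun heq c
    have hCC : C = C' := by
      ext e
      rw [hH C hC1 e, hH C' hC1' e]
      refine and_congr_right fun _ => ?_
      have h2 := h1 (mkC E X p q (p e))
      have h3 := h1 (mkC E X p q (q e))
      exact bool_aux1 _ _ _ _ _ _ h2 h3
    subst hCC
    obtain ⟨v⟩ := (inferInstance : Nonempty ι)
    have h2 := h1 (mkC E X p q v)
    have hbb : b = b' := bool_aux2 _ _ _ h2
    rw [hbb]
  rw [Finset.card_product, Finset.card_univ, Fintype.card_bool, Finset.card_univ,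
    Fintype.card_fun, Fintype.card_bool] at hcard
  rw [Nat.card_eq_fintype_card]
  exact hcard

theorem mul_cls_le {E : Finset α} {p q : α → ι} {X : Finset α} (hX : X ⊆ E) {k : ℕ}
    (hconn : ∀ A : Finset ι, A.Nonempty → A ≠ univ → k ≤ (cutE E p q A).card)
    (hcut : ∃ A : Finset ι, cutE E p q A ⊆ X ∧ (cutE E p q A).Nonempty) :
    2 ≤ Nat.card (Cls E X p q) ∧ k * Nat.card (Cls E X p q) ≤ 2 * X.card := by
  classical
  haveI : Fintype (Cls E X p q) := Fintype.ofFinite _
  have hnt : Nontrivial (Cls E X p q) := by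
    obtain ⟨A, hA, e, he⟩ := hcut
    obtain ⟨H, _, hH⟩ := cut_fun hA
    have h1 := ((hH e).1 he).2
    exact ⟨⟨mkC E X p q (p e), mkC E X p q (q e), fun h2 => h1 (by rw [h2])⟩⟩
  rw [Nat.card_eq_fintype_card]
  refine ⟨Fintype.one_lt_card, ?_⟩
  set S : Cls E X p q → Finset ι := fun c => univ.filter fun v => mkC E X p q v = c with hS
  have hsurj : ∀ c : Cls E X p q, ∃ v, mkC E X p q v = c := fun c => Quot.exists_rep c
  have hSmem : ∀ (c : Cls E X p q) (v : ι), v ∈ S c ↔ mkC E X p q v = c := by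
    intro c v; rw [hS]; simp
  have hk : ∀ c, k ≤ (cutE E p q (S c)).card := by
    intro c
    apply hconn
    · obtain ⟨v, hv⟩ := hsurj c
      exact ⟨v, (hSmem c v).2 hv⟩
    · intro h
      obtain ⟨c', hc'⟩ := exists_ne c
      obtain ⟨v, hv⟩ := hsurj c'
      have h1 : v ∈ S c := by rw [h]; exact Finset.mem_univ v
      exact hc' (hv ▸ (hSmem c v).1 h1)
  have hsub : ∀ c, cutE E p q (S c) = X.filter fun e => e ∈ cutE E p q (S c) := by
    intro c
    ext e
    rw [Finset.mem_filter]
    refine ⟨fun h => ⟨?_, h⟩, fun h => h.2⟩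
    by_contra hX
    have h1 := h
    unfold cutE at h1
    rw [Finset.mem_filter] at h1
    have h2 := mkC_eq (p := p) (q := q) h1.1 hX
    have h3 := h1.2
    rw [hSmem, hSmem, h2] at h3
    tauto
  have hsum : k * Fintype.card (Cls E X p q) ≤ ∑ c : Cls E X p q, (cutE E p q (S c)).card := by
    calc k * Fintype.card (Cls E X p q) = ∑ _ : Cls E X p q, k := by
          rw [Finset.sum_const, Finset.card_univ, smul_eq_mul, mul_comm]
      _ ≤ _ := Finset.sum_le_sum fun c _ => hk c
  refine hsum.trans ?_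
  have hswap : ∑ c : Cls E X p q, (cutE E p q (S c)).card =
      ∑ e ∈ X, (univ.filter fun c : Cls E X p q => e ∈ cutE E p q (S c)).card := by
    have h1 : ∀ c : Cls E X p q, (cutE E p q (S c)).card =
        ∑ e ∈ X, if e ∈ cutE E p q (S c) then 1 else 0 := by
      intro c
      conv_lhs => rw [hsub c]
      rw [Finset.card_filter]
    rw [Finset.sum_congr rfl fun c _ => h1 c, Finset.sum_comm]
    refine Finset.sum_congr rfl fun e _ => ?_
    rw [Finset.card_filter]
  rw [hswap, mul_comm 2, ← smul_eq_mul, ← Finset.sum_const]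
  refine Finset.sum_le_sum fun e _ => ?_
  have h2 : (univ.filter fun c : Cls E X p q => e ∈ cutE E p q (S c)) ⊆
      {mkC E X p q (p e), mkC E X p q (q e)} := by
    intro c hc
    rw [Finset.mem_filter] at hc
    have h3 := hc.2
    unfold cutE at h3
    rw [Finset.mem_filter, hSmem, hSmem] at h3
    rw [Finset.mem_insert, Finset.mem_singleton]
    rcases h3.2 with ⟨h4, _⟩ | ⟨_, h4⟩
    · exact Or.inl h4.symm
    · exact Or.inr h4.symm
  exact (Finset.card_le_card h2).trans Finset.card_le_two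

end Pool.Agent.H89P
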