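import Mathlib

/-!
MP_e3de44_co: graphs on a surface, in combinatorial form. Every edge has two ends and two sides;
the sides are faces. Every cut meets every face evenly, and modulo cuts there are at most `2 ^ g`
edge sets which meet every face evenly.
-/

set_option autoImplicit false

namespace Pool.Agent.H89P

open Finset

variable {α Φ ι : Type} [DecidableEq α] [Fintype Φ] [DecidableEq Φ] [Fintype ι] [DecidableEq ι]

/-- number of sides of the edge `e` at the face `φ` -/
def inc (s : Bool → α → Φ) (e : α) (φ : Φ) : ℕ :=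
  (if s false e = φ then 1 else 0) + (if s true e = φ then 1 else 0)

/-- number of sides of the edges of `X` at the face `φ` -/
def fdeg (s : Bool → α → Φ) (X : Finset α) (φ : Φ) : ℕ := ∑ e ∈ X, inc s e φ

/-- every face is met evenly -/
def EvenSet (s : Bool → α → Φ) (C : Finset α) : Prop := ∀ φ, Even (fdeg s C φ)

/-- number of faces which are met oddly -/
def oddF (s : Bool → α → Φ) (C : Finset α) : ℕ :=
  (univ.filter fun φ => ¬ Even (fdeg s C φ)).card

/-- the edges with exactly one end in `A` -/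
def cutE (E : Finset α) (p q : α → ι) (A : Finset ι) : Finset α :=
  E.filter fun e => (p e ∈ A ∧ q e ∉ A) ∨ (p e ∉ A ∧ q e ∈ A)

/-- an edge connected graph with faces -/
structure Surf (E : Finset α) (p q : α → ι) (s : Bool → α → Φ) (k g : ℕ) : Prop where
  even : ∀ A : Finset ι, EvenSet s (cutE E p q A)
  conn : ∀ A : Finset ι, A.Nonempty → A ≠ univ → k ≤ (cutE E p q A).card
  few : ∃ cls : Finset α → Fin (2 ^ g), ∀ C ⊆ E, ∀ C' ⊆ E, EvenSet s C → EvenSet s C' →
    cls C = cls C' → ∃ A : Finset ι, symmDiff C C' = cutE E p q A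

/-- a thread with `L` edges `t 0, ..., t (L - 1)`: consecutive edges meet in a face of degree two -/
structure Thr (s : Bool → α → Φ) (X : Finset α) (L : ℕ) (t : ℕ → α) (u : ℕ → Φ) : Prop where
  mem : ∀ i < L, t i ∈ X
  inj : ∀ i < L, ∀ j < L, t i = t j → i = j
  sd : ∀ i < L, (s false (t i) = u i ∧ s true (t i) = u (i + 1)) ∨
    (s true (t i) = u i ∧ s false (t i) = u (i + 1))
  two : ∀ i, 0 < i → i < L → fdeg s X (u i) = 2

/-- the edges of a thread -/
def thrE (t : ℕ → α) (L : ℕ) : Finset α := (range L).image t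

/-- a closed thread: no face of `Z` meets the rest of `X`, and an even set contains all or nothing
of `Z` -/
structure Clo (s : Bool → α → Φ) (X Z : Finset α) : Prop where
  sub : Z ⊆ X
  ne : Z.Nonempty
  even : EvenSet s Z
  iso : ∀ φ, 0 < fdeg s Z φ → fdeg s (X \ Z) φ = 0
  all : ∀ C ⊆ X, EvenSet s C → Z ⊆ C ∨ Disjoint Z C

/-- number of sides of the edges of `X` at faces of degree other than two -/
def stops (s : Bool → α → Φ) (X : Finset α) : ℕ :=
  ((X ×ˢ (univ : Finset Bool)).filter fun d => fdeg s X (s d.2 d.1) ≠ 2).card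

/-- the classes of vertices joined by the edges of `E` outside `X` -/
def Cls (E X : Finset α) (p q : α → ι) : Type :=
  Quot (fun a b : ι => ∃ e ∈ E \ X, p e = a ∧ q e = b)

/-- the bundles for the edge set `X`: `D` edges in every bundle, and a set `R` of at most as many
edges as there are disjoint even sets with less than `L` edges -/
def Bun (E : Finset α) (p q : α → ι) (s : Bool → α → Φ) (D L : ℕ) (X : Finset α) : Prop :=
  ∃ (B : Finset (Finset α)) (R : Finset α) (ZZ : Finset (Finset α)),
    (∀ F ∈ B, F ⊆ X ∧ F.card = D) ∧ (B : Set (Finset α)).PairwiseDisjoint id ∧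
    R ⊆ X ∧ R.card ≤ ZZ.card ∧
    (∀ Z ∈ ZZ, Z ⊆ X ∧ Z.Nonempty ∧ EvenSet s Z ∧ Z.card < L) ∧
    (ZZ : Set (Finset α)).PairwiseDisjoint id ∧
    ∀ ch : Finset α → α, (∀ F ∈ B, ch F ∈ F) →
      (∀ C ⊆ X, 2 * D * (B.filter fun F => ch F ∈ C).card ≤ 2 * C.card + D * oddF s C) ∧
      ∀ A : Finset ι, cutE E p q A ⊆ X → (cutE E p q A).Nonempty →
        (∃ F ∈ B, ch F ∈ cutE E p q A) ∨ ∃ e ∈ R, e ∈ cutE E p q A

end Pool.Agent.H89P
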