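import Pool.Agent.H89P.Basic

/-!
MP_e3de44_co: few even sets: few sides at faces of degree at least three.
-/

set_option autoImplicit false

namespace Pool.Agent.H89P

open Finset

variable {α Φ ι : Type} [DecidableEq α] [Fintype Φ] [DecidableEq Φ] [Fintype ι] [DecidableEq ι]

namespace EulerL

/-- half of the subsets of a nonempty set are even -/
theorem card_even_sets {β : Type} [DecidableEq β] {Y : Finset β} (hY : Y.Nonempty) :
    2 * (Y.powerset.filter fun A => Even A.card).card ≤ 2 ^ Y.card := by
  obtain ⟨y, hy⟩ := hY
  have h1 : (Y.powerset.filter fun A => Even A.card).card ≤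
      (Y.powerset.filter fun A => ¬ Even A.card).card := by
    refine card_le_card_of_injOn (fun A => symmDiff A {y}) ?_ ?_
    · intro A hA
      have hA' := mem_filter.1 (mem_coe.1 hA)
      have h2 := mem_powerset.1 hA'.1
      refine mem_coe.2 (mem_filter.2 ⟨mem_powerset.2 ?_, ?_⟩)
      · intro x hx
        rw [mem_symmDiff] at hx
        rcases hx with h | h
        · exact h2 h.1
        · rw [mem_singleton.1 h.1]; exact hy
      · show ¬ Even (symmDiff A {y}).card
        by_cases hyA : y ∈ A
        · have h3 : symmDiff A {y} = A.erase y := by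
            ext x
            rw [mem_symmDiff, mem_erase, mem_singleton]
            constructor
            · rintro (h | h)
              · exact ⟨h.2, h.1⟩
              · rw [h.1] at h; exact absurd hyA h.2
            · exact fun h => Or.inl ⟨h.2, h.1⟩
          have h4 := card_erase_add_one hyA
          rw [h3]
          intro he
          have h5 := hA'.2
          rw [← h4] at h5
          exact (Nat.even_add_one.1 h5) he
        · have h3 : symmDiff A {y} = insert y A := by
            ext x
            rw [mem_symmDiff, mem_insert, mem_singleton]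
            constructor
            · rintro (h | h)
              · exact Or.inr h.1
              · exact Or.inl h.1
            · rintro (h | h)
              · rw [h]; exact Or.inr ⟨rfl, hyA⟩
              · refine Or.inl ⟨h, ?_⟩
                rintro rfl
                exact hyA h
          rw [h3, card_insert_of_notMem hyA, Nat.even_add_one, not_not]
          exact hA'.2
    · intro A _ B _ h
      exact symmDiff_left_injective {y} h
  have h2 := card_filter_add_card_filter_not (s := Y.powerset) (fun A => Even A.card)
  rw [card_powerset] at h2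
  omega

theorem card_le (s : Bool → α → Φ) {X : Finset α} (hX : X.Nonempty)
    {N : ℕ} (hN : (X.powerset.filter fun C => ∀ φ, Even (fdeg s C φ)).card ≤ 2 ^ N) :
    X.card + 1 ≤ N + (univ.filter fun φ => 0 < fdeg s X φ).card := by
  obtain ⟨Y, hYdef⟩ : ∃ Y : Finset Φ, Y = univ.filter fun φ => 0 < fdeg s X φ := ⟨_, rfl⟩
  have hY : Y.Nonempty := by
    by_contra hne
    rw [not_nonempty_iff_eq_empty] at hne
    have h1 := sum_fdeg s X
    have h2 : ∑ φ, fdeg s X φ = 0 := by
      refine sum_eq_zero (fun φ _ => ?_)
      by_contra h0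
      have : φ ∈ Y := by
        rw [hYdef]
        exact mem_filter.2 ⟨mem_univ _, Nat.pos_of_ne_zero h0⟩
      rw [hne] at this
      exact absurd this (notMem_empty φ)
    have h3 := hX.card_pos
    omega
  have key : X.powerset.card ≤ (X.powerset.filter fun C => ∀ φ, Even (fdeg s C φ)).card *
      (Y.powerset.filter fun A => Even A.card).card := by
    refine card_le_mul_card_image_of_maps_to
      (f := fun C => univ.filter fun φ => ¬ Even (fdeg s C φ)) ?_ _ ?_
    · intro C hC
      have hCX := mem_powerset.1 hC
      refine mem_filter.2 ⟨mem_powerset.2 ?_, ?_⟩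
      · intro φ hφ
        have h1 := (mem_filter.1 hφ).2
        rw [hYdef]
        refine mem_filter.2 ⟨mem_univ _, lt_of_lt_of_le ?_ (fdeg_mono s hCX φ)⟩
        refine Nat.pos_of_ne_zero (fun h0 => h1 ?_)
        rw [h0]
        exact Even.zero
      · have h1 : Even (∑ φ, fdeg s C φ) := by
          rw [sum_fdeg]
          exact even_two_mul _
        rw [even_sum_iff_even_card_odd] at h1
        have h2 : (univ.filter fun φ => ¬ Even (fdeg s C φ)) =
            (univ.filter fun φ => Odd (fdeg s C φ)) := by
          refine filter_congr (fun φ _ => ?_)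
          exact Nat.not_even_iff_odd
        show Even ((univ.filter fun φ => ¬ Even (fdeg s C φ)).card)
        rw [h2]
        exact h1
    · intro A _
      rcases eq_empty_or_nonempty (X.powerset.filter fun C =>
        (univ.filter fun φ => ¬ Even (fdeg s C φ)) = A) with he | ⟨C0, hC0⟩
      · rw [he, card_empty]; exact Nat.zero_le _
      · obtain ⟨hC0X, hC0A⟩ := mem_filter.1 hC0
        rw [mem_powerset] at hC0X
        refine card_le_card_of_injOn (fun C => symmDiff C C0) ?_ ?_
        · intro C hC
          obtain ⟨hCX, hCA⟩ := mem_filter.1 (mem_coe.1 hC)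
          rw [mem_powerset] at hCX
          refine mem_coe.2 (mem_filter.2 ⟨mem_powerset.2 ?_, fun φ => ?_⟩)
          · intro x hx
            rw [mem_symmDiff] at hx
            rcases hx with h | h
            · exact hCX h.1
            · exact hC0X h.1
          · rw [fdeg_symmDiff, Nat.even_add]
            have h1 : φ ∈ (univ.filter fun φ => ¬ Even (fdeg s C φ)) ↔
                φ ∈ (univ.filter fun φ => ¬ Even (fdeg s C0 φ)) := by
              rw [hCA, hC0A]
            rw [mem_filter, mem_filter] at h1
            simp only [mem_univ, true_and] at h1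
            exact not_iff_not.1 h1
        · intro A _ B _ h
          exact symmDiff_left_injective C0 h
  have h2 := card_even_sets hY
  rw [card_powerset] at key
  have h3 : 2 ^ (X.card + 1) ≤ 2 ^ (N + Y.card) := by
    calc 2 ^ (X.card + 1) = 2 ^ X.card * 2 := pow_succ _ _
      _ ≤ ((X.powerset.filter fun C => ∀ φ, Even (fdeg s C φ)).card *
        (Y.powerset.filter fun A => Even A.card).card) * 2 := Nat.mul_le_mul_right 2 key
      _ = (X.powerset.filter fun C => ∀ φ, Even (fdeg s C φ)).card *
        (2 * (Y.powerset.filter fun A => Even A.card).card) := by ring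
      _ ≤ 2 ^ N * 2 ^ Y.card := Nat.mul_le_mul hN h2
      _ = 2 ^ (N + Y.card) := (pow_add _ _ _).symm
  rw [← hYdef]
  exact (Nat.pow_le_pow_iff_right (by norm_num)).1 h3

theorem stops_eq (s : Bool → α → Φ) (X : Finset α) :
    stops s X = ∑ φ ∈ univ.filter (fun φ => fdeg s X φ ≠ 2), fdeg s X φ := by
  unfold stops
  rw [card_eq_sum_card_fiberwise (f := fun d : α × Bool => s d.2 d.1)
    (t := univ.filter (fun φ => fdeg s X φ ≠ 2))]
  · refine sum_congr rfl (fun φ hφ => ?_)
    rw [fdeg_card, filter_filter]
    congr 1
    refine filter_congr (fun d _ => ?_)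
    constructor
    · exact fun h => h.2
    · intro h
      refine ⟨?_, h⟩
      rw [h]
      exact (mem_filter.1 hφ).2
  · intro d hd
    exact mem_coe.2 (mem_filter.2 ⟨mem_univ _, (mem_filter.1 (mem_coe.1 hd)).2⟩)

end EulerL

/-- few even sets: few sides at faces of degree at least three -/
theorem euler (s : Bool → α → Φ) {X : Finset α} (hX : X.Nonempty) (h1 : ∀ φ, fdeg s X φ ≠ 1)
    {N : ℕ} (hN : (X.powerset.filter fun C => ∀ φ, Even (fdeg s C φ)).card ≤ 2 ^ N) :
    stops s X + 6 ≤ 6 * N := by
  have h2 := EulerL.card_le s hX hN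
  have h3 := EulerL.stops_eq s X
  have h4 := sum_fdeg s X
  rw [← sum_filter_add_sum_filter_not univ (fun φ => fdeg s X φ ≠ 2)] at h4
  have h5 : ∑ φ ∈ univ.filter (fun φ => ¬ fdeg s X φ ≠ 2), fdeg s X φ =
      (univ.filter (fun φ => fdeg s X φ = 2)).card * 2 := by
    have h6 : (univ.filter (fun φ => ¬ fdeg s X φ ≠ 2)) =
        (univ.filter (fun φ => fdeg s X φ = 2)) := filter_congr (fun φ _ => not_not)
    rw [h6, ← smul_eq_mul, ← sum_const]
    exact sum_congr rfl (fun φ hφ => (mem_filter.1 hφ).2)
  have h7 : (univ.filter fun φ => 0 < fdeg s X φ).card =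
      (univ.filter (fun φ => fdeg s X φ = 2)).card +
      (univ.filter (fun φ => 3 ≤ fdeg s X φ)).card := by
    rw [← card_union_of_disjoint]
    · congr 1
      ext φ
      simp only [mem_filter, mem_union, mem_univ, true_and]
      have := h1 φ
      omega
    · rw [disjoint_filter]
      intro φ _ h h'
      omega
  have h8 : (univ.filter (fun φ => 3 ≤ fdeg s X φ)).card * 3 ≤
      ∑ φ ∈ univ.filter (fun φ => fdeg s X φ ≠ 2), fdeg s X φ := by
    calc (univ.filter (fun φ => 3 ≤ fdeg s X φ)).card * 3
        = ∑ _φ ∈ univ.filter (fun φ => 3 ≤ fdeg s X φ), 3 := by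
          rw [sum_const, smul_eq_mul]
      _ ≤ ∑ φ ∈ univ.filter (fun φ => 3 ≤ fdeg s X φ), fdeg s X φ :=
          sum_le_sum (fun φ hφ => (mem_filter.1 hφ).2)
      _ ≤ _ := sum_le_sum_of_subset_of_nonneg (fun φ hφ => by
          have := (mem_filter.1 hφ).2
          exact mem_filter.2 ⟨mem_univ _, by omega⟩) (fun _ _ _ => Nat.zero_le _)
  rw [← h3] at h4 h8
  rw [h5] at h4
  omega

end Pool.Agent.H89P
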