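import Pool.Agent.H89P.Defs

/-!
MP_e3de44_co: few even sets, and few disjoint short even sets.
-/

set_option autoImplicit false

namespace Pool.Agent.H89P

open Finset

variable {α Φ ι : Type} [DecidableEq α] [Fintype Φ] [DecidableEq Φ] [Fintype ι] [DecidableEq ι]

open Classical in
theorem card_even_le {E : Finset α} {p q : α → ι} {s : Bool → α → Φ} {k g : ℕ}
    (h : Surf E p q s k g) {X : Finset α} (hX : X ⊆ E) :
    (X.powerset.filter fun C => ∀ φ, Even (fdeg s C φ)).card ≤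
      2 ^ g * (X.powerset.filter fun C => ∃ A : Finset ι, C = cutE E p q A).card := by
  obtain ⟨cls, hcls⟩ := h.few
  have h1 : ∀ a ∈ (X.powerset.filter fun C => ∀ φ, Even (fdeg s C φ)).image cls,
      ((X.powerset.filter fun C => ∀ φ, Even (fdeg s C φ)).filter fun x => cls x = a).card ≤
        (X.powerset.filter fun C => ∃ A : Finset ι, C = cutE E p q A).card := by
    intro a ha
    obtain ⟨C0, hC0, rfl⟩ := Finset.mem_image.1 ha
    obtain ⟨hC0X, hC0e⟩ := Finset.mem_filter.1 hC0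
    rw [Finset.mem_powerset] at hC0X
    refine Finset.card_le_card_of_injOn (fun C => symmDiff C C0) ?_ ?_
    · intro C hC
      obtain ⟨hC1, hC2⟩ := Finset.mem_filter.1 (Finset.mem_coe.1 hC)
      obtain ⟨hC3, hC4⟩ := Finset.mem_filter.1 hC1
      rw [Finset.mem_powerset] at hC3
      refine Finset.mem_coe.2 (Finset.mem_filter.2 ⟨?_, ?_⟩)
      · rw [Finset.mem_powerset]
        intro z hz
        rcases Finset.mem_symmDiff.1 hz with ⟨h1, _⟩ | ⟨h1, _⟩
        · exact hC3 h1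
        · exact hC0X h1
      · exact hcls C (hC3.trans hX) C0 (hC0X.trans hX) hC4 hC0e hC2
    · intro C _ C' _ hCC
      exact symmDiff_left_injective C0 hCC
  have h2 := Finset.card_le_mul_card_image (f := cls)
    (X.powerset.filter fun C => ∀ φ, Even (fdeg s C φ)) _ h1
  have h3 : ((X.powerset.filter fun C => ∀ φ, Even (fdeg s C φ)).image cls).card ≤ 2 ^ g := by
    have h4 := Finset.card_le_univ ((X.powerset.filter fun C => ∀ φ, Even (fdeg s C φ)).image cls)
    rwa [Fintype.card_fin] at h4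
  refine h2.trans ?_
  rw [mul_comm]
  exact Nat.mul_le_mul_right _ h3

omit [Fintype Φ] in
private theorem even_biUnion {s : Bool → α → Φ} {S : Finset (Finset α)}
    (hd : (S : Set (Finset α)).PairwiseDisjoint id) (he : ∀ Z ∈ S, EvenSet s Z) :
    EvenSet s (S.biUnion id) := by
  intro φ
  unfold fdeg
  rw [Finset.sum_biUnion hd]
  exact Finset.even_sum _ (fun Z hZ => he Z hZ φ)

theorem card_short_le {E : Finset α} {p q : α → ι} {s : Bool → α → Φ} {k g L : ℕ}
    (h : Surf E p q s k g) (hL : (g + 1) * L ≤ k) (ZZ : Finset (Finset α))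
    (hZ : ∀ Z ∈ ZZ, Z ⊆ E ∧ Z.Nonempty ∧ EvenSet s Z ∧ Z.card < L)
    (hd : (ZZ : Set (Finset α)).PairwiseDisjoint id) : ZZ.card ≤ g := by
  by_contra hcon
  push Not at hcon
  obtain ⟨Y, hYZ, hYc⟩ := Finset.exists_subset_card_eq (s := ZZ) (n := g + 1) hcon
  obtain ⟨cls, hcls⟩ := h.few
  have hYd : (Y : Set (Finset α)).PairwiseDisjoint id := hd.subset (Finset.coe_subset.2 hYZ)
  -- two subfamilies with unions in the same class
  have hlt : (univ : Finset (Fin (2 ^ g))).card < Y.powerset.card := by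
    rw [Finset.card_powerset, hYc, Finset.card_univ, Fintype.card_fin]
    exact Nat.pow_lt_pow_right (by norm_num) (Nat.lt_succ_self g)
  obtain ⟨S, hS, S', hS', hne, hcl⟩ := Finset.exists_ne_map_eq_of_card_lt_of_maps_to hlt
    (f := fun S : Finset (Finset α) => cls (S.biUnion id)) (fun S _ => Finset.mem_coe.2 (Finset.mem_univ _))
  rw [Finset.mem_powerset] at hS hS'
  have hsub : ∀ S : Finset (Finset α), S ⊆ Y → S.biUnion id ⊆ E := by
    intro S hS z hz
    obtain ⟨Z, hZS, hzZ⟩ := Finset.mem_biUnion.1 hz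
    exact (hZ Z (hYZ (hS hZS))).1 hzZ
  have hev : ∀ S : Finset (Finset α), S ⊆ Y → EvenSet s (S.biUnion id) := by
    intro S hS
    exact even_biUnion (hYd.subset (Finset.coe_subset.2 hS))
      (fun Z hZS => (hZ Z (hYZ (hS hZS))).2.2.1)
  obtain ⟨A, hA⟩ := hcls _ (hsub S hS) _ (hsub S' hS') (hev S hS) (hev S' hS') hcl
  -- a member of exactly one subfamily
  have key : ∀ S S' : Finset (Finset α), S ⊆ Y → S' ⊆ Y → ∀ Z ∈ S, Z ∉ S' →
      ∃ z, z ∈ S.biUnion id ∧ z ∉ S'.biUnion id := by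
    intro S S' hS hS' Z hZS hZS'
    obtain ⟨z, hz⟩ := (hZ Z (hYZ (hS hZS))).2.1
    refine ⟨z, Finset.mem_biUnion.2 ⟨Z, hZS, hz⟩, ?_⟩
    intro hz'
    obtain ⟨Z', hZ'S, hzZ'⟩ := Finset.mem_biUnion.1 hz'
    have hne' : Z ≠ Z' := by
      rintro rfl
      exact hZS' hZ'S
    exact Finset.disjoint_left.1 (hYd (Finset.mem_coe.2 (hS hZS)) (Finset.mem_coe.2 (hS' hZ'S)) hne')
      hz hzZ'
  have hnon : (cutE E p q A).Nonempty := by
    rw [← hA]
    by_cases h1 : S ⊆ S'
    · have h2 : ¬ S' ⊆ S := fun h2 => hne (Finset.Subset.antisymm h1 h2)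
      obtain ⟨Z, hZ1, hZ2⟩ := Finset.not_subset.1 h2
      obtain ⟨z, hz1, hz2⟩ := key S' S hS' hS Z hZ1 hZ2
      exact ⟨z, Finset.mem_symmDiff.2 (Or.inr ⟨hz1, hz2⟩)⟩
    · obtain ⟨Z, hZ1, hZ2⟩ := Finset.not_subset.1 h1
      obtain ⟨z, hz1, hz2⟩ := key S S' hS hS' Z hZ1 hZ2
      exact ⟨z, Finset.mem_symmDiff.2 (Or.inl ⟨hz1, hz2⟩)⟩
  have hA1 : A.Nonempty := by
    rw [Finset.nonempty_iff_ne_empty]
    rintro rfl
    obtain ⟨z, hz⟩ := hnon
    unfold cutE at hz
    simp at hz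
  have hA2 : A ≠ univ := by
    rintro rfl
    obtain ⟨z, hz⟩ := hnon
    unfold cutE at hz
    simp at hz
  have hk := h.conn A hA1 hA2
  have hle : (cutE E p q A).card ≤ ∑ Z ∈ Y, Z.card := by
    rw [← hA]
    refine (Finset.card_le_card (t := Y.biUnion id) ?_).trans Finset.card_biUnion_le
    intro z hz
    rcases Finset.mem_symmDiff.1 hz with ⟨h1, _⟩ | ⟨h1, _⟩
    · exact Finset.biUnion_subset_biUnion_of_subset_left _ hS h1
    · exact Finset.biUnion_subset_biUnion_of_subset_left _ hS' h1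
  have hlt2 : ∑ Z ∈ Y, Z.card < ∑ _Z ∈ Y, L := by
    refine Finset.sum_lt_sum_of_nonempty ?_ (fun Z hZY => (hZ Z (hYZ hZY)).2.2.2)
    rw [← Finset.card_pos, hYc]
    omega
  rw [Finset.sum_const, hYc, smul_eq_mul] at hlt2
  omega

end Pool.Agent.H89P
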