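import Pool.Agent.H89Q.Glue

/-!
# Glueing the trees of the expanding parts along the quotient: bundles of unit edges

As `Pool.Agent.H89Q.glue`, for bundles of unit edges, with an extra set `R` of edges.
-/

set_option autoImplicit false
set_option linter.unusedSectionVars false

namespace Pool.Agent.H89P

open Finset
open Pool.Agent.H85.Thin Pool.Agent.H89Q

theorem glueL {V : Type} [Fintype V] [DecidableEq V] [Nonempty V] (mult : V → V → ℕ)
    (hsymm : ∀ u v, mult u v = mult v u) {k φ α : ℝ}
    (hk : 0 < k) (hφ : 0 < φ) (hφ1 : φ ≤ 1)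
    (hconn : ∀ A : Finset V, A.Nonempty → A ≠ univ → k ≤ cut (fun u v => (mult u v : ℝ)) A)
    (hdeg : ∀ v, k ≤ E (fun u v => (mult u v : ℝ)) {v} univ) {l : ℕ} (f : V → Fin l)
    (hsurj : ∀ i, (part f i).Nonempty)
    (hexp : ∀ i, ∀ B ⊆ part f i,
      φ * E (fun u v => (mult u v : ℝ)) B univ ≤
        E (fun u v => (mult u v : ℝ)) B (part f i \ B) ∨
      φ * E (fun u v => (mult u v : ℝ)) (part f i \ B) univ ≤
        E (fun u v => (mult u v : ℝ)) B (part f i \ B))
    {n q : ℕ} (hq : 0 < q) (F : Fin n → Finset (V × V × ℕ))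
    (hF : ∀ i, ∀ e ∈ F i, e.2.2 < mult e.1 e.2.1 ∧ f e.1 ≠ f e.2.1)
    (hcard : ∀ i, q ≤ (F i).card)
    (hdis : ∀ i j, i ≠ j → Disjoint (F i) (F j))
    (R : Finset (V × V × ℕ)) (hR : ∀ e ∈ R, e.2.2 < mult e.1 e.2.1 ∧ f e.1 ≠ f e.2.1)
    (hspan : ∀ ch : Fin n → V × V × ℕ, (∀ i, ch i ∈ F i) → ∀ A : Finset (Fin l),
      A.Nonempty → A ≠ univ →
      (∃ i, Cross A (f (ch i).1, f (ch i).2.1)) ∨ ∃ e ∈ R, Cross A (f e.1, f e.2.1))
    (hα : 0 ≤ α)
    (hload : ∀ ch : Fin n → V × V × ℕ, (∀ i, ch i ∈ F i) → ∀ A : Finset (Fin l),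
      ∀ J : Finset (Fin n), (∀ i ∈ J, Cross A (f (ch i).1, f (ch i).2.1)) →
      (J.card : ℝ) ≤ α * ∑ a ∈ A, ∑ b ∈ Aᶜ,
        E (fun u v => (mult u v : ℝ)) (part f a) (part f b)) :
    ∃ T : SimpleGraph V, T.IsTree ∧ (∀ u v, T.Adj u v → 0 < mult u v) ∧
      ∀ A : Finset V, (Set.ncard {p : V × V | p.1 ∈ A ∧ p.2 ∉ A ∧ T.Adj p.1 p.2} : ℝ) ≤
        (α * (1 + 1 / φ) + 2 * (1 / q + 4 / k) / φ + 5 / (φ ^ 2 * k) + R.card / k) *
          cut (fun u v => (mult u v : ℝ)) A := by
  classical
  set w : V → V → ℝ := fun u v => (mult u v : ℝ) with hwdef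
  have hw : ∀ u v, 0 ≤ w u v := fun u v => Nat.cast_nonneg _
  have hsy : ∀ u v, w u v = w v u := fun u v => by simp only [hwdef, hsymm u v]
  have hdg : ∀ v, (dg mult v : ℝ) = E w {v} univ := by
    intro v
    rw [E_singleton]
    unfold dg
    push_cast
    rfl
  -- the trees of the parts
  choose root hroot using hsurj
  choose par rk hT using fun i => exists_tree hk hφ hdeg hw hsy (hroot i) (hexp i)
  -- the choice of the edges
  obtain ⟨ch, hchF, hch1, hch2⟩ := select_lin mult hsymm hq F
    (fun i e he => (hF i e he).1) hdis hcard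
  have hchm : ∀ i : Fin n, 0 < mult (ch i).1 (ch i).2.1 := fun i =>
    lt_of_le_of_lt (Nat.zero_le _) (hF i _ (hchF i)).1
  have hchne : ∀ i : Fin n, f (ch i).1 ≠ f (ch i).2.1 := fun i => (hF i _ (hchF i)).2
  let Q : V → V → Prop := fun x y =>
    (x ≠ root (f x) ∧ y = par (f x) x) ∨ (∃ i : Fin n, (ch i).1 = x ∧ (ch i).2.1 = y) ∨
      ∃ e ∈ R, e.1 = x ∧ e.2.1 = y
  have hRw : ∀ x y, Q x y → 0 < mult x y := by
    rintro x y (⟨h1, rfl⟩ | ⟨i, rfl, rfl⟩ | ⟨e, he, rfl, rfl⟩)
    · have h2 : (0 : ℝ) < (mult x (par (f x) x) : ℝ) :=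
        ((hT (f x)).2.1 x (mem_part.2 rfl) h1).2.1
      exact_mod_cast h2
    · exact hchm i
    · exact lt_of_le_of_lt (Nat.zero_le _) (hR e he).1
  let H : SimpleGraph V := SimpleGraph.fromRel Q
  have hHadj : ∀ x y, H.Adj x y ↔ x ≠ y ∧ (Q x y ∨ Q y x) := fun x y => Iff.rfl
  have hHw : ∀ u v, H.Adj u v → 0 < mult u v := by
    intro u v h
    rcases ((hHadj u v).1 h).2 with h | h
    · exact hRw u v h
    · rw [hsymm u v]
      exact hRw v u h
  -- every vertex reaches the root of its part
  have hreach : ∀ n, ∀ x, rk (f x) x = n → H.Reachable x (root (f x)) := by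
    intro n
    induction n using Nat.strong_induction_on with
    | _ n ih =>
      intro x hx
      by_cases hxr : x = root (f x)
      · rw [← hxr]
      · obtain ⟨a1, a2, a3⟩ := (hT (f x)).2.1 x (mem_part.2 rfl) hxr
        have hfy : f (par (f x) x) = f x := mem_part.1 a1
        have h1 := ih (rk (f x) (par (f x) x)) (by rw [← hx]; exact a3) (par (f x) x)
          (by rw [hfy])
        rw [hfy] at h1
        have hadj : H.Adj x (par (f x) x) := by
          rw [hHadj]
          refine ⟨fun e => ?_, Or.inl (Or.inl ⟨hxr, rfl⟩)⟩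
          rw [← e] at a3
          exact lt_irrefl _ a3
        exact hadj.reachable.trans h1
  have hreach' : ∀ x y, f x = f y → H.Reachable x y := by
    intro x y hxy
    have h1 := hreach _ x rfl
    have h2 := hreach _ y rfl
    rw [hxy] at h1
    exact h1.trans h2.symm
  have hcross : ∀ (A : Finset (Fin l)) (x y : V), (∀ z z', H.Reachable z z' → (f z ∈ A ↔ f z' ∈ A)) →
      x ≠ y → Q x y → ¬ Cross A (f x, f y) := by
    intro A x y hA hxy hQ hc
    have h1 : H.Adj x y := (hHadj x y).2 ⟨hxy, Or.inl hQ⟩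
    have h2 := hA x y h1.reachable
    unfold Cross at hc
    simp only at hc
    rcases hc with h | h
    · exact h.2 (h2.1 h.1)
    · exact h.1 (h2.2 h.2)
  have hconnH : H.Connected := by
    rw [SimpleGraph.connected_iff]
    refine ⟨fun x0 y0 => ?_, inferInstance⟩
    let A : Finset (Fin l) := univ.filter fun a => ∃ y, f y = a ∧ H.Reachable x0 y
    have hAmem : ∀ z, f z ∈ A ↔ H.Reachable x0 z := by
      intro z
      simp only [A, mem_filter, mem_univ, true_and]
      constructor
      · rintro ⟨y, h1, h2⟩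
        exact h2.trans (hreach' y z h1)
      · exact fun h => ⟨z, rfl, h⟩
    have hAr : ∀ z z', H.Reachable z z' → (f z ∈ A ↔ f z' ∈ A) := by
      intro z z' h
      rw [hAmem, hAmem]
      exact ⟨fun h1 => h1.trans h, fun h1 => h1.trans h.symm⟩
    by_contra hno
    have hA1 : A.Nonempty := ⟨f x0, (hAmem x0).2 (SimpleGraph.Reachable.refl _)⟩
    have hA2 : A ≠ univ := by
      intro h
      exact hno ((hAmem y0).1 (h ▸ mem_univ _))
    rcases hspan ch hchF A hA1 hA2 with ⟨i, hi⟩ | ⟨e, he, hi⟩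
    · exact hcross A _ _ hAr (fun h => hchne i (by rw [h])) (Or.inr (Or.inl ⟨i, rfl, rfl⟩)) hi
    · exact hcross A _ _ hAr (fun h => (hR e he).2 (by rw [h]))
        (Or.inr (Or.inr ⟨e, he, rfl, rfl⟩)) hi
  obtain ⟨T, hTH, hTT⟩ := hconnH.exists_isTree_le
  refine ⟨T, hTT, fun u v h => hHw u v (hTH h), fun A => ?_⟩
  -- trivial cuts
  by_cases hAt : A.Nonempty ∧ A ≠ univ
  swap
  · have h1 : {p : V × V | p.1 ∈ A ∧ p.2 ∉ A ∧ T.Adj p.1 p.2} = ∅ := by
      rw [Set.eq_empty_iff_forall_notMem]
      rintro p ⟨h1, h2, -⟩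
      refine hAt ⟨⟨_, h1⟩, fun h => h2 ?_⟩
      rw [h]
      exact mem_univ _
    rw [h1, Set.ncard_empty, Nat.cast_zero]
    have h2 : 0 ≤ cut w A := sum_nonneg fun u _ => sum_nonneg fun v _ => hw u v
    refine mul_nonneg ?_ h2
    positivity
  -- rounding
  obtain ⟨A', M, hM1, hM2, hM3⟩ := rounding hw hsy hφ f hexp A
  -- the crossing pairs
  let X1 : Finset V := univ.filter fun x => x ≠ root (f x) ∧ x ∈ A ∧ par (f x) x ∉ A
  let X2 : Finset V := univ.filter fun x => x ≠ root (f x) ∧ x ∉ A ∧ par (f x) x ∈ A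
  let X3 : Finset (Fin n) := univ.filter fun i =>
    ((ch i).1 ∈ A ∧ (ch i).2.1 ∉ A) ∨ ((ch i).1 ∉ A ∧ (ch i).2.1 ∈ A)
  let e3 : Fin n → V × V := fun i => if (ch i).1 ∈ A then ((ch i).1, (ch i).2.1)
    else ((ch i).2.1, (ch i).1)
  let e4 : V × V × ℕ → V × V := fun e => if e.1 ∈ A then (e.1, e.2.1) else (e.2.1, e.1)
  have hsub : {p : V × V | p.1 ∈ A ∧ p.2 ∉ A ∧ T.Adj p.1 p.2} ⊆
      (((X1.image fun x => (x, par (f x) x)) ∪ (X2.image fun x => (par (f x) x, x))) ∪
        X3.image e3 ∪ R.image e4 : Finset (V × V)) := by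
    rintro ⟨u, v⟩ ⟨hu, hv, huv⟩
    have h1 := ((hHadj u v).1 (hTH huv)).2
    rw [Finset.mem_coe, Finset.mem_union, Finset.mem_union, Finset.mem_union]
    simp only at hu hv
    rcases h1 with (⟨h1, h2⟩ | ⟨i, h1, h2⟩ | ⟨e, he, h1, h2⟩) |
      (⟨h1, h2⟩ | ⟨i, h1, h2⟩ | ⟨e, he, h1, h2⟩)
    · left; left; left
      rw [Finset.mem_image]
      refine ⟨u, ?_, by rw [h2]⟩
      simp only [X1, mem_filter, mem_univ, true_and]
      rw [← h2]
      exact ⟨h1, hu, hv⟩
    · left; right
      rw [Finset.mem_image]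
      refine ⟨i, ?_, ?_⟩
      · simp only [X3, mem_filter, mem_univ, true_and]
        left
        rw [h1, h2]
        exact ⟨hu, hv⟩
      · simp only [e3]
        rw [h1, h2, if_pos hu]
    · right
      rw [Finset.mem_image]
      refine ⟨e, he, ?_⟩
      simp only [e4]
      rw [h1, h2, if_pos hu]
    · left; left; right
      rw [Finset.mem_image]
      refine ⟨v, ?_, by rw [h2]⟩
      simp only [X2, mem_filter, mem_univ, true_and]
      rw [← h2]
      exact ⟨h1, hv, hu⟩
    · left; right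
      rw [Finset.mem_image]
      refine ⟨i, ?_, ?_⟩
      · simp only [X3, mem_filter, mem_univ, true_and]
        right
        rw [h1, h2]
        exact ⟨hv, hu⟩
      · simp only [e3]
        rw [h1, h2, if_neg hv]
    · right
      rw [Finset.mem_image]
      refine ⟨e, he, ?_⟩
      simp only [e4]
      rw [h1, h2, if_neg hv]
  have hcount : Set.ncard {p : V × V | p.1 ∈ A ∧ p.2 ∉ A ∧ T.Adj p.1 p.2} ≤
      (X1.card + X2.card) + X3.card + R.card := by
    refine (Set.ncard_le_ncard hsub (Finset.finite_toSet _)).trans ?_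
    rw [Set.ncard_coe_finset]
    refine (Finset.card_union_le _ _).trans (add_le_add ?_ Finset.card_image_le)
    refine (Finset.card_union_le _ _).trans (add_le_add ?_ Finset.card_image_le)
    exact (Finset.card_union_le _ _).trans (add_le_add Finset.card_image_le Finset.card_image_le)
  -- the tree edges of the parts
  have hparts : ((X1.card + X2.card : ℕ) : ℝ) ≤ 5 / (φ ^ 2 * k) * cut w A := by
    have e1 : X1.card = ∑ i, (X1.filter fun x => f x = i).card :=
      Finset.card_eq_sum_card_fiberwise fun x _ => Finset.mem_univ _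
    have e2 : X2.card = ∑ i, (X2.filter fun x => f x = i).card :=
      Finset.card_eq_sum_card_fiberwise fun x _ => Finset.mem_univ _
    have e3 : ((X1.card + X2.card : ℕ) : ℝ) =
        ∑ i, (((X1.filter fun x => f x = i).card + (X2.filter fun x => f x = i).card : ℕ) : ℝ) := by
      rw [e1, e2, ← Finset.sum_add_distrib, Nat.cast_sum]
    have hone : ∀ i, (((X1.filter fun x => f x = i).card + (X2.filter fun x => f x = i).card : ℕ) : ℝ)
        ≤ 5 / (φ ^ 2 * k) * E w (part f i ∩ A) (part f i \ A) := by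
      intro i
      have hB : part f i ∩ A ⊆ part f i := Finset.inter_subset_left
      have hsd : part f i \ (part f i ∩ A) = part f i \ A := by
        ext v
        simp only [mem_sdiff, mem_inter]
        tauto
      have c1 := count_part hk hφ hφ1 hdeg hw (hT i) (B := part f i ∩ A)
        (X := X1.filter fun x => f x = i) (Y := X2.filter fun x => f x = i)
        (by
          intro x hx
          simp only [X1, mem_filter, mem_univ, true_and] at hx
          rw [Finset.mem_inter, mem_part]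
          exact ⟨hx.2, hx.1.2.1⟩)
        (by
          intro x hx
          simp only [X2, mem_filter, mem_univ, true_and] at hx
          obtain ⟨⟨h1, _, h3⟩, h4⟩ := hx
          subst h4
          refine ⟨mem_part.2 rfl, h1, Finset.mem_inter.2 ⟨?_, h3⟩⟩
          exact ((hT (f x)).2.1 x (mem_part.2 rfl) h1).1)
      have c2 := count_part hk hφ hφ1 hdeg hw (hT i) (B := part f i \ A)
        (X := X2.filter fun x => f x = i) (Y := X1.filter fun x => f x = i)
        (by
          intro x hx
          simp only [X2, mem_filter, mem_univ, true_and] at hx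
          rw [Finset.mem_sdiff, mem_part]
          exact ⟨hx.2, hx.1.2.1⟩)
        (by
          intro x hx
          simp only [X1, mem_filter, mem_univ, true_and] at hx
          obtain ⟨⟨h1, _, h3⟩, h4⟩ := hx
          subst h4
          refine ⟨mem_part.2 rfl, h1, Finset.mem_sdiff.2 ⟨?_, h3⟩⟩
          exact ((hT (f x)).2.1 x (mem_part.2 rfl) h1).1)
      have hpos : 0 ≤ 5 / (φ * k) := by positivity
      have e4 : 5 / (φ ^ 2 * k) = 5 / (φ * k) * (1 / φ) := by
        field_simp
      rcases hexp i _ hB with h | h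
      · rw [hsd] at h
        have h5 : E w (part f i ∩ A) univ ≤ 1 / φ * E w (part f i ∩ A) (part f i \ A) := by
          rw [one_div, ← div_eq_inv_mul, le_div_iff₀ hφ, mul_comm]
          exact h
        rw [e4, mul_assoc]
        exact c1.trans (mul_le_mul_of_nonneg_left h5 hpos)
      · rw [hsd] at h
        have h5 : E w (part f i \ A) univ ≤ 1 / φ * E w (part f i ∩ A) (part f i \ A) := by
          rw [one_div, ← div_eq_inv_mul, le_div_iff₀ hφ, mul_comm]
          exact h
        rw [e4, mul_assoc, add_comm]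
        exact c2.trans (mul_le_mul_of_nonneg_left h5 hpos)
    rw [e3]
    refine (Finset.sum_le_sum fun i _ => hone i).trans ?_
    rw [← Finset.mul_sum]
    exact mul_le_mul_of_nonneg_left (sum_inner_le hw f A) (by positivity)
  -- the edges between the parts
  have hvolM : E w M univ ≤ 1 / φ * cut w A := by
    rw [one_div, ← div_eq_inv_mul, le_div_iff₀ hφ, mul_comm]
    exact hM2
  have hq0 : (0 : ℝ) < q := by exact_mod_cast hq
  have hend : ∀ en : Fin n → V,
      (∀ x, ((univ.filter fun i => en i = x).card : ℝ) ≤ (dg mult x : ℝ) / q + 4) →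
      ((univ.filter fun i => en i ∈ M).card : ℝ) ≤ (1 / q + 4 / k) * E w M univ := by
    intro en hen
    have h1 : (univ.filter fun i => en i ∈ M).card =
        ∑ x ∈ M, ((univ.filter fun i => en i ∈ M).filter fun i => en i = x).card :=
      card_eq_sum_card_fiberwise fun i hi => (mem_filter.1 hi).2
    have h2 : ((univ.filter fun i => en i ∈ M).card : ℝ) ≤
        ∑ x ∈ M, ((dg mult x : ℝ) / q + 4) := by
      rw [h1]
      push_cast
      refine sum_le_sum fun x _ => ?_
      refine le_trans ?_ (hen x)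
      have h3 : ((univ.filter fun i => en i ∈ M).filter fun i => en i = x).card ≤
          (univ.filter fun i => en i = x).card :=
        card_le_card (filter_subset_filter _ (filter_subset _ _))
      exact_mod_cast h3
    refine h2.trans ?_
    rw [E_sum_left M univ, mul_sum]
    refine sum_le_sum fun x _ => ?_
    rw [hdg x]
    have h5 : (1 : ℝ) ≤ E w {x} univ / k := by
      rw [le_div_iff₀ hk, one_mul]
      exact hdeg x
    have h6 : (1 / (q : ℝ) + 4 / k) * E w {x} univ = E w {x} univ / q + 4 * (E w {x} univ / k) := by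
      ring
    rw [h6]
    linarith
  have hX3 : (X3.card : ℝ) ≤ α * (cut w A + E w M univ) + 2 * ((1 / q + 4 / k) * E w M univ) := by
    have h1 : X3.card ≤ (univ.filter fun i : Fin n =>
        Cross A' (f (ch i).1, f (ch i).2.1)).card +
        ((univ.filter fun i : Fin n => (ch i).1 ∈ M).card +
          (univ.filter fun i : Fin n => (ch i).2.1 ∈ M).card) := by
      refine (card_le_card ?_).trans ((card_union_le _ _).trans
        (add_le_add_right (card_union_le _ _) _))
      intro i hi
      simp only [X3, mem_filter, mem_univ, true_and] at hi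
      rw [mem_union, mem_union, mem_filter, mem_filter, mem_filter]
      by_cases hm1 : (ch i).1 ∈ M
      · exact Or.inr (Or.inl ⟨mem_univ _, hm1⟩)
      by_cases hm2 : (ch i).2.1 ∈ M
      · exact Or.inr (Or.inr ⟨mem_univ _, hm2⟩)
      refine Or.inl ⟨mem_univ _, ?_⟩
      have a1 := hM1 _ hm1
      have a2 := hM1 _ hm2
      unfold Cross
      simp only
      rw [← a1, ← a2]
      exact hi
    have h2 : ((univ.filter fun i : Fin n => Cross A' (f (ch i).1, f (ch i).2.1)).card : ℝ) ≤
        α * (cut w A + E w M univ) := by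
      have h3 := hload ch hchF A' (univ.filter fun i : Fin n =>
        Cross A' (f (ch i).1, f (ch i).2.1)) (fun i hi => (mem_filter.1 hi).2)
      exact h3.trans (mul_le_mul_of_nonneg_left hM3 hα)
    have h3 := hend (fun i => (ch i).1) hch1
    have h4 := hend (fun i => (ch i).2.1) hch2
    have h5 : (X3.card : ℝ) ≤ ((univ.filter fun i : Fin n =>
        Cross A' (f (ch i).1, f (ch i).2.1)).card : ℝ) +
        (((univ.filter fun i : Fin n => (ch i).1 ∈ M).card : ℝ) +
          ((univ.filter fun i : Fin n => (ch i).2.1 ∈ M).card : ℝ)) := by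
      exact_mod_cast h1
    linarith
  have hfin : (Set.ncard {p : V × V | p.1 ∈ A ∧ p.2 ∉ A ∧ T.Adj p.1 p.2} : ℝ) ≤
      ((X1.card + X2.card : ℕ) : ℝ) + (X3.card : ℝ) + (R.card : ℝ) := by
    have := hcount
    exact_mod_cast this
  have hRc : (R.card : ℝ) ≤ R.card / k * cut w A := by
    have h1 := hconn A hAt.1 hAt.2
    rw [div_mul_eq_mul_div, le_div_iff₀ hk]
    exact mul_le_mul_of_nonneg_left h1 (Nat.cast_nonneg _)
  have e1 : α * (cut w A + E w M univ) ≤ α * (1 + 1 / φ) * cut w A := by
    rw [mul_assoc]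
    refine mul_le_mul_of_nonneg_left ?_ hα
    linarith
  have e2 : 2 * ((1 / (q : ℝ) + 4 / k) * E w M univ) ≤ 2 * (1 / q + 4 / k) / φ * cut w A := by
    have h1 : 2 * (1 / (q : ℝ) + 4 / k) / φ * cut w A =
        2 * ((1 / (q : ℝ) + 4 / k) * (1 / φ * cut w A)) := by ring
    rw [h1]
    have h2 : 0 ≤ 1 / (q : ℝ) + 4 / k := by positivity
    have h3 := mul_le_mul_of_nonneg_left hvolM h2
    linarith
  have e3' : (α * (1 + 1 / φ) + 2 * (1 / q + 4 / k) / φ + 5 / (φ ^ 2 * k) + R.card / k) *
      cut w A = α * (1 + 1 / φ) * cut w A + 2 * (1 / q + 4 / k) / φ * cut w A +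
        5 / (φ ^ 2 * k) * cut w A + R.card / k * cut w A := by ring
  rw [e3']
  linarith

end Pool.Agent.H89P
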