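import Pool.Agent.H89P.Defs

/-!
P4: walks across the faces of degree two.
-/

set_option autoImplicit false

namespace Pool.Agent.H89P

open Finset

variable {α Φ ι : Type} [DecidableEq α] [Fintype Φ] [DecidableEq Φ] [Fintype ι] [DecidableEq ι]

private theorem orb_sdiff (s : Bool → α → Φ) {C Z : Finset α} (h : Z ⊆ C) (φ : Φ) :
    fdeg s C φ = fdeg s (C \ Z) φ + fdeg s Z φ := by
  unfold fdeg
  rw [← Finset.sum_sdiff h]

private theorem orb_card (s : Bool → α → Φ) (X : Finset α) (φ : Φ) :
    fdeg s X φ = ((X ×ˢ (univ : Finset Bool)).filter fun d => s d.2 d.1 = φ).card := by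
  rw [Finset.card_filter, Finset.sum_product]
  unfold fdeg inc
  refine Finset.sum_congr rfl fun e _ => ?_
  rw [Fintype.sum_bool]
  exact Nat.add_comm _ _

/-- a dart whose face has degree two -/
private def orbP (s : Bool → α → Φ) (X : Finset α) (d : α × Bool) : Prop :=
  d.1 ∈ X ∧ fdeg s X (s d.2 d.1) = 2

private theorem orb_ex {s : Bool → α → Φ} {X : Finset α} {d : α × Bool} (h : orbP s X d) :
    ∃ d' : α × Bool, d'.1 ∈ X ∧ d' ≠ d ∧ s d'.2 d'.1 = s d.2 d.1 ∧
      ∀ z : α × Bool, z.1 ∈ X → s z.2 z.1 = s d.2 d.1 → z = d ∨ z = d' := by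
  obtain ⟨hX, h2⟩ := h
  rw [orb_card, Finset.card_eq_two] at h2
  obtain ⟨x, y, hxy, hs⟩ := h2
  have hm : ∀ z : α × Bool, z = x ∨ z = y ↔ z.1 ∈ X ∧ s z.2 z.1 = s d.2 d.1 := by
    intro z
    have h1 : z ∈ ({x, y} : Finset (α × Bool)) ↔ z = x ∨ z = y := by simp
    rw [← h1, ← hs]
    simp
  have hx := (hm x).1 (Or.inl rfl)
  have hy := (hm y).1 (Or.inr rfl)
  rcases (hm d).2 ⟨hX, rfl⟩ with h | h
  · refine ⟨y, hy.1, ?_, hy.2, fun z hz hz' => ?_⟩
    · rw [h]; exact hxy.symm
    · rw [h]; exact (hm z).2 ⟨hz, hz'⟩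
  · refine ⟨x, hx.1, ?_, hx.2, fun z hz hz' => ?_⟩
    · rw [h]; exact hxy
    · rw [h]; exact ((hm z).2 ⟨hz, hz'⟩).symm

open Classical in
/-- the other dart at the face -/
private noncomputable def oth (s : Bool → α → Φ) (X : Finset α) (d : α × Bool) : α × Bool :=
  if h : orbP s X d then (orb_ex h).choose else d

/-- the reversed dart -/
private def flp (d : α × Bool) : α × Bool := (d.1, !d.2)

private theorem flp_flp (d : α × Bool) : flp (flp d) = d := by
  simp [flp]

private theorem flp_ne (d : α × Bool) : d ≠ flp d := by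
  intro h
  have := congrArg Prod.snd h
  simp [flp] at this

private theorem oth_spec {s : Bool → α → Φ} {X : Finset α} {d : α × Bool} (h : orbP s X d) :
    (oth s X d).1 ∈ X ∧ oth s X d ≠ d ∧ s (oth s X d).2 (oth s X d).1 = s d.2 d.1 ∧
      ∀ z : α × Bool, z.1 ∈ X → s z.2 z.1 = s d.2 d.1 → z = d ∨ z = oth s X d := by
  unfold oth
  rw [dif_pos h]
  exact (orb_ex h).choose_spec

private theorem oth_P {s : Bool → α → Φ} {X : Finset α} {d : α × Bool} (h : orbP s X d) :
    orbP s X (oth s X d) := by
  obtain ⟨h1, -, h3, -⟩ := oth_spec h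
  exact ⟨h1, by rw [h3]; exact h.2⟩

private theorem oth_oth {s : Bool → α → Φ} {X : Finset α} {d : α × Bool} (h : orbP s X d) :
    oth s X (oth s X d) = d := by
  obtain ⟨h1, h2, h3, h4⟩ := oth_spec h
  obtain ⟨g1, g2, g3, g4⟩ := oth_spec (oth_P h)
  rcases h4 _ g1 (g3.trans h3) with h' | h'
  · exact h'
  · exact absurd h' g2

/-- one step of the walk -/
private noncomputable def nx (s : Bool → α → Φ) (X : Finset α) (d : α × Bool) : α × Bool :=
  flp (oth s X d)

private theorem nx_inj {s : Bool → α → Φ} {X : Finset α} {d d' : α × Bool} (h : orbP s X d)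
    (h' : orbP s X d') (he : nx s X d = nx s X d') : d = d' := by
  unfold nx at he
  have h1 : oth s X d = oth s X d' := by rw [← flp_flp (oth s X d), he, flp_flp]
  rw [← oth_oth h, h1, oth_oth h']

private theorem nx_flp {s : Bool → α → Φ} {X : Finset α} {d : α × Bool} (h : orbP s X d) :
    nx s X (flp (nx s X d)) = flp d := by
  unfold nx
  rw [flp_flp, oth_oth h]

private theorem flp_nx_P {s : Bool → α → Φ} {X : Finset α} {d : α × Bool} (h : orbP s X d) :
    orbP s X (flp (nx s X d)) := by
  unfold nx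
  rw [flp_flp]
  exact oth_P h

private theorem nx_mem {s : Bool → α → Φ} {X : Finset α} {d : α × Bool} (h : orbP s X d) :
    (nx s X d).1 ∈ X := (oth_spec h).1

/-- the two faces of a step agree -/
private theorem nx_face {s : Bool → α → Φ} {X : Finset α} {d : α × Bool} (h : orbP s X d) :
    s (!(nx s X d).2) (nx s X d).1 = s d.2 d.1 := by
  have h3 := (oth_spec h).2.2.1
  unfold nx flp
  simpa using h3

/-- the walk -/
private noncomputable def wk (s : Bool → α → Φ) (X : Finset α) (d : α × Bool) (i : ℕ) : α × Bool :=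
  (nx s X)^[i] d

private theorem wk_succ (s : Bool → α → Φ) (X : Finset α) (d : α × Bool) (i : ℕ) :
    wk s X d (i + 1) = nx s X (wk s X d i) := Function.iterate_succ_apply' _ _ _

private theorem wk_add (s : Bool → α → Φ) (X : Finset α) (d : α × Bool) (i j : ℕ) :
    wk s X d (i + j) = wk s X (wk s X d j) i := Function.iterate_add_apply _ _ _ _

private theorem wk_cancel {s : Bool → α → Φ} {X : Finset α} {d d' : α × Bool} : ∀ m : ℕ,
    (∀ i < m, orbP s X (wk s X d i)) → (∀ i < m, orbP s X (wk s X d' i)) →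
      wk s X d m = wk s X d' m → d = d'
  | 0, _, _, h => h
  | m + 1, h1, h2, h => by
    rw [wk_succ, wk_succ] at h
    exact wk_cancel m (fun i hi => h1 i (by omega)) (fun i hi => h2 i (by omega))
      (nx_inj (h1 m (by omega)) (h2 m (by omega)) h)

/-- no dart of the walk is reversed later -/
private theorem wk_norev {s : Bool → α → Φ} {X : Finset α} {d : α × Bool} {L : ℕ}
    (hP : ∀ i < L, orbP s X (wk s X d i)) : ∀ (m i : ℕ), i + m < L →
      wk s X d (i + m) ≠ flp (wk s X d i) := by
  intro m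
  induction m using Nat.strong_induction_on with
  | _ m ih =>
  intro i hi h
  rcases m with _ | _ | m
  · exact flp_ne _ h
  · rw [wk_succ] at h
    unfold nx at h
    have h1 : oth s X (wk s X d i) = wk s X d i := by
      rw [← flp_flp (oth s X (wk s X d i)), h, flp_flp]
    exact (oth_spec (hP i (by omega))).2.1 h1
  · have e1 : i + (m + 1 + 1) = (i + (m + 1)) + 1 := by omega
    rw [e1, wk_succ, ← nx_flp (hP i (by omega))] at h
    have h2 := nx_inj (hP (i + (m + 1)) (by omega)) (flp_nx_P (hP i (by omega))) h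
    rw [← wk_succ] at h2
    have e2 : i + (m + 1) = (i + 1) + m := by omega
    rw [e2] at h2
    exact ih m (by omega) (i + 1) (by omega) h2

theorem orbit (s : Bool → α → Φ) (X : Finset α) {L : ℕ} (hL : 1 ≤ L) :
    (∃ (t : ℕ → α) (u : ℕ → Φ), Thr s X L t u) ∨ (∃ Z, Clo s X Z ∧ Z.card < L) ∨
      2 * X.card ≤ stops s X * L := by
  classical
  by_cases hall : ∀ d : α × Bool, d.1 ∈ X → ∃ m < L, ¬ orbP s X (wk s X d m)
  · -- every dart stops
    right; right
    have hex : ∀ d : α × Bool, d.1 ∈ X → ∃ m, ¬ orbP s X (wk s X d m) := fun d hd =>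
      ⟨_, (hall d hd).choose_spec.2⟩
    let f : α × Bool → (α × Bool) × ℕ := fun d =>
      if h : d.1 ∈ X then (wk s X d (Nat.find (hex d h)), Nat.find (hex d h)) else (d, 0)
    have hf : ∀ d : α × Bool, ∀ h : d.1 ∈ X,
        f d = (wk s X d (Nat.find (hex d h)), Nat.find (hex d h)) := fun d h => dif_pos h
    have hlt : ∀ d : α × Bool, ∀ h : d.1 ∈ X, Nat.find (hex d h) < L := fun d h => by
      obtain ⟨m, hm, hm'⟩ := hall d h
      exact lt_of_le_of_lt (Nat.find_min' _ hm') hm
    have hmin : ∀ d : α × Bool, ∀ h : d.1 ∈ X, ∀ i < Nat.find (hex d h),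
        orbP s X (wk s X d i) := fun d h i hi => not_not.1 (Nat.find_min (hex d h) hi)
    have hmem : ∀ d : α × Bool, ∀ h : d.1 ∈ X, (wk s X d (Nat.find (hex d h))).1 ∈ X := by
      intro d h
      rcases hm : Nat.find (hex d h) with _ | m
      · exact h
      · rw [wk_succ]
        exact nx_mem (hmin d h m (by omega))
    have hcard : (X ×ˢ (univ : Finset Bool)).card ≤
        (((X ×ˢ (univ : Finset Bool)).filter fun d => fdeg s X (s d.2 d.1) ≠ 2) ×ˢ range L).card := by
      refine Finset.card_le_card_of_injOn f ?_ ?_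
      · intro d hd
        have hd' : d.1 ∈ X := by simpa using hd
        rw [hf d hd']
        have h1 := Nat.find_spec (hex d hd')
        have h2 := hmem d hd'
        have h3 := hlt d hd'
        rw [Finset.mem_coe, Finset.mem_product, Finset.mem_filter, Finset.mem_product]
        refine ⟨⟨⟨h2, mem_univ _⟩, fun h => h1 ⟨h2, h⟩⟩, mem_range.2 h3⟩
      · intro d hd d' hd' he
        have h1 : d.1 ∈ X := by simpa using hd
        have h2 : d'.1 ∈ X := by simpa using hd'
        rw [hf d h1, hf d' h2, Prod.mk.injEq] at he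
        have h3 := hmin d h1
        have h4 := hmin d' h2
        rw [← he.2] at h4
        refine wk_cancel _ h3 h4 ?_
        rw [he.1, he.2]
    rw [Finset.card_product, Finset.card_product, Finset.card_range, Finset.card_univ,
      Fintype.card_bool] at hcard
    unfold stops
    omega
  push Not at hall
  obtain ⟨d0, hd0, hP⟩ := hall
  obtain ⟨w, hw⟩ : ∃ w : ℕ → α × Bool, w = wk s X d0 := ⟨_, rfl⟩
  have hws : ∀ i, w (i + 1) = nx s X (w i) := fun i => by rw [hw]; exact wk_succ _ _ _ _
  have hP' : ∀ i < L, orbP s X (w i) := fun i hi => by rw [hw]; exact hP i hi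
  obtain ⟨u, hu0, hu⟩ : ∃ u : ℕ → Φ, u 0 = s (!(w 0).2) (w 0).1 ∧
      ∀ i, u (i + 1) = s (w i).2 (w i).1 :=
    ⟨fun i => Nat.casesOn i (s (!(w 0).2) (w 0).1) (fun j => s (w j).2 (w j).1), rfl, fun _ => rfl⟩
  have hu' : ∀ i, (∀ j < i, orbP s X (w j)) → u i = s (!(w i).2) (w i).1 := by
    intro i hi
    rcases i with _ | i
    · exact hu0
    · rw [hu, hws, nx_face (hi i (by omega))]
  by_cases hinj : ∀ i < L, ∀ j < L, (w i).1 = (w j).1 → i = j
  · -- a thread
    left
    refine ⟨fun i => (w i).1, u, fun i hi => (hP' i hi).1, hinj, ?_, ?_⟩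
    · intro i hi
      have h1 := hu' i (fun j hj => hP' j (by omega))
      have h2 := hu i
      change (s false (w i).1 = u i ∧ s true (w i).1 = u (i + 1)) ∨
        (s true (w i).1 = u i ∧ s false (w i).1 = u (i + 1))
      cases hb : (w i).2 with
      | true =>
        rw [hb] at h1 h2
        left
        exact ⟨h1.symm, h2.symm⟩
      | false =>
        rw [hb] at h1 h2
        right
        exact ⟨h1.symm, h2.symm⟩
    · intro i hi hiL
      obtain ⟨j, rfl⟩ : ∃ j, i = j + 1 := ⟨i - 1, by omega⟩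
      rw [hu]
      exact (hP' j (by omega)).2
  -- a closed thread
  right; left
  have hsame : ∀ i j, i < j → j < L → (w i).1 = (w j).1 → w (j - i) = w 0 := by
    intro i j hij hj he
    have h1 : w i = w j := by
      by_contra hne
      have h2 : w j = flp (w i) := by
        refine Prod.ext he.symm ?_
        have h3 : (w i).2 ≠ (w j).2 := fun h => hne (Prod.ext he h)
        change (w j).2 = !(w i).2
        cases h4 : (w i).2 <;> cases h5 : (w j).2 <;> simp_all
      refine wk_norev (s := s) (X := X) (d := d0) (L := L) hP (j - i) i (by omega) ?_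
      rw [← hw]
      have e : i + (j - i) = j := by omega
      rw [e]
      exact h2
    have h2 : wk s X (w 0) i = wk s X (w (j - i)) i := by
      have e1 : wk s X (w 0) i = w i := by rw [hw]; rfl
      have e2 : wk s X (w (j - i)) i = w j := by
        rw [hw, ← wk_add]
        congr 1
        omega
      rw [e1, e2]
      exact h1
    refine (wk_cancel i ?_ ?_ h2).symm
    · intro m hm
      have e1 : wk s X (w 0) m = w m := by rw [hw]; rfl
      rw [e1]
      exact hP' m (by omega)
    · intro m hm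
      have e2 : wk s X (w (j - i)) m = w (m + (j - i)) := by rw [hw, ← wk_add]
      rw [e2]
      exact hP' _ (by omega)
  have hper : ∃ p, 1 ≤ p ∧ p < L ∧ w p = w 0 := by
    push Not at hinj
    obtain ⟨i, hi, j, hj, he, hne⟩ := hinj
    rcases Nat.lt_or_gt_of_ne hne with h | h
    · exact ⟨j - i, by omega, by omega, hsame i j h hj he⟩
    · exact ⟨i - j, by omega, by omega, hsame j i h hi he.symm⟩
  obtain ⟨hp1, hpL, hp0⟩ := Nat.find_spec hper
  have hpmin := fun m (hm : m < Nat.find hper) => Nat.find_min hper hm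
  obtain ⟨p, hp⟩ : ∃ p, p = Nat.find hper := ⟨_, rfl⟩
  rw [← hp] at hp1 hpL hp0 hpmin
  have hti : ∀ i < p, ∀ j < p, (w i).1 = (w j).1 → i = j := by
    intro i hi j hj he
    by_contra hne
    rcases Nat.lt_or_gt_of_ne hne with h | h
    · exact hpmin (j - i) (by omega) ⟨by omega, by omega, hsame i j h (by omega) he⟩
    · exact hpmin (i - j) (by omega) ⟨by omega, by omega, hsame j i h (by omega) he.symm⟩
  have hwp : ∀ m, w (m + p) = w m := by
    intro m
    have e1 : w (m + p) = wk s X (w p) m := by rw [hw, ← wk_add]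
    have e2 : wk s X (w 0) m = w m := by rw [hw]; rfl
    rw [e1, hp0, e2]
  have hPall : ∀ m, orbP s X (w m) := by
    intro m
    induction m using Nat.strong_induction_on with
    | _ m ih =>
      by_cases hm : m < p
      · exact hP' m (by omega)
      · have := ih (m - p) (by omega)
        rw [← hwp (m - p)] at this
        have e : m - p + p = m := by omega
        rwa [e] at this
  have hu2 : ∀ i, u i = s (!(w i).2) (w i).1 := fun i => hu' i (fun j _ => hPall j)
  have hup : u p = u 0 := by rw [hu2, hu2, hp0]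
  have hdeg : ∀ i, fdeg s X (u i) = 2 := by
    intro i
    rcases i with _ | i
    · rw [← hup]
      obtain ⟨j, hj⟩ : ∃ j, p = j + 1 := ⟨p - 1, by omega⟩
      rw [hj, hu]
      exact (hPall j).2
    · rw [hu]
      exact (hPall i).2
  have hinc : ∀ i φ, inc s (w i).1 φ = (if u i = φ then 1 else 0) + (if u (i + 1) = φ then 1 else 0) := by
    intro i φ
    rw [hu2 i, hu i]
    unfold inc
    cases (w i).2
    · simp only [Bool.not_false]
      exact Nat.add_comm _ _
    · simp only [Bool.not_true]
  have hinj' : Set.InjOn (fun i => (w i).1) ((range p : Finset ℕ) : Set ℕ) := by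
    intro i hi j hj he
    exact hti i (by simpa using hi) j (by simpa using hj) he
  obtain ⟨Z, hZ⟩ : ∃ Z : Finset α, Z = (range p).image (fun i => (w i).1) := ⟨_, rfl⟩
  have hZmem : ∀ z, z ∈ Z ↔ ∃ i < p, (w i).1 = z := by
    intro z
    rw [hZ, Finset.mem_image]
    simp only [Finset.mem_range]
  have hZX : Z ⊆ X := by
    intro z hz
    obtain ⟨i, _, rfl⟩ := (hZmem z).1 hz
    exact (hPall i).1
  have hfZ : ∀ φ, fdeg s Z φ = 2 * ∑ i ∈ range p, (if u i = φ then 1 else 0) := by
    intro φ
    unfold fdeg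
    rw [hZ, Finset.sum_image hinj']
    rw [Finset.sum_congr rfl (fun i _ => hinc i φ), Finset.sum_add_distrib, two_mul]
    congr 1
    have h1 := Finset.sum_range_succ (fun i => (if u i = φ then 1 else 0 : ℕ)) p
    have h2 := Finset.sum_range_succ' (fun i => (if u i = φ then 1 else 0 : ℕ)) p
    rw [hup] at h1
    omega
  have hpos : ∀ {C : Finset α} {z : α} {φ : Φ}, z ∈ C → 0 < inc s z φ → 0 < fdeg s C φ := by
    intro C z φ hz h
    exact lt_of_lt_of_le h (Finset.single_le_sum (f := fun e => inc s e φ) (fun _ _ => Nat.zero_le _) hz)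
  have hstep : ∀ {C : Finset α}, C ⊆ X → EvenSet s C → ∀ m, (w m).1 ∈ C → (w (m + 1)).1 ∈ C := by
    intro C hC hev m hm
    by_contra hcon
    have h1 : 0 < fdeg s C (u (m + 1)) := hpos hm (by rw [hinc]; simp)
    have h2 : 0 < fdeg s (X \ C) (u (m + 1)) :=
      hpos (Finset.mem_sdiff.2 ⟨(hPall (m + 1)).1, hcon⟩) (by rw [hinc]; simp)
    have h3 := orb_sdiff s hC (u (m + 1))
    rw [hdeg] at h3
    obtain ⟨r, hr⟩ := hev (u (m + 1))
    omega
  refine ⟨Z, ⟨hZX, ?_, ?_, ?_, ?_⟩, ?_⟩
  · exact ⟨(w 0).1, (hZmem _).2 ⟨0, by omega, rfl⟩⟩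
  · intro φ
    rw [hfZ]
    exact even_two_mul _
  · intro φ hφ
    have h1 := hfZ φ
    have h2 : 0 < ∑ i ∈ range p, (if u i = φ then 1 else 0) := by omega
    obtain ⟨i, _, hi⟩ := Finset.exists_ne_zero_of_sum_ne_zero h2.ne'
    have hi' : u i = φ := by
      by_contra h
      rw [if_neg h] at hi
      exact hi rfl
    have h3 := orb_sdiff s hZX φ
    have h4 := hdeg i
    rw [hi'] at h4
    omega
  · intro C hC hev
    by_cases h : ∃ i < p, (w i).1 ∈ C
    · left
      obtain ⟨i, hi, hiC⟩ := h
      have h1 : ∀ m, (w (i + m)).1 ∈ C := by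
        intro m
        induction m with
        | zero => exact hiC
        | succ m ih => exact hstep hC hev _ ih
      intro z hz
      obtain ⟨j, hj, rfl⟩ := (hZmem z).1 hz
      have h2 := h1 (j + p - i)
      have e : i + (j + p - i) = j + p := by omega
      rw [e, hwp] at h2
      exact h2
    · right
      rw [Finset.disjoint_left]
      intro z hz hzC
      obtain ⟨i, hi, rfl⟩ := (hZmem z).1 hz
      exact h ⟨i, hi, hzC⟩
  · have h1 : Z.card ≤ p := by
      rw [hZ]
      exact Finset.card_image_le.trans (by rw [Finset.card_range])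
    omega

end Pool.Agent.H89P
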