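import Pool.Agent.H89P.Basic

/-!
MP_e3de44_co: threads. An even set contains all edges of a thread or none; removing a thread
changes the number of faces which are met oddly in a controlled way.
-/

set_option autoImplicit false

namespace Pool.Agent.H89P

open Finset

variable {α Φ : Type} [DecidableEq α] [Fintype Φ] [DecidableEq Φ]

omit [DecidableEq α] [Fintype Φ] in
theorem Thr.inc_eq {s : Bool → α → Φ} {X : Finset α} {L : ℕ} {t : ℕ → α} {u : ℕ → Φ}
    (h : Thr s X L t u) {i : ℕ} (hi : i < L) (φ : Φ) :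
    inc s (t i) φ = (if u i = φ then 1 else 0) + (if u (i + 1) = φ then 1 else 0) := by
  unfold inc
  rcases h.sd i hi with ⟨h1, h2⟩ | ⟨h1, h2⟩
  · rw [h1, h2]
  · rw [h1, h2, add_comm]

omit [Fintype Φ] in
theorem Thr.inc_int {s : Bool → α → Φ} {X : Finset α} {L : ℕ} {t : ℕ → α} {u : ℕ → Φ}
    (h : Thr s X L t u) {i : ℕ} (hi : 0 < i) (hiL : i < L) {e : α} (he : e ∈ X) :
    inc s e (u i) = (if e = t (i - 1) then 1 else 0) + (if e = t i then 1 else 0) := by
  have ha : t (i - 1) ∈ X := h.mem _ (by omega)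
  have hb : t i ∈ X := h.mem _ hiL
  have hab : t (i - 1) ≠ t i := fun hh => by
    have := h.inj _ (by omega) _ hiL hh
    omega
  have h1 : 1 ≤ inc s (t (i - 1)) (u i) := by
    rw [h.inc_eq (by omega)]
    have : i - 1 + 1 = i := by omega
    rw [this, if_pos rfl]
    omega
  have h2 : 1 ≤ inc s (t i) (u i) := by
    rw [h.inc_eq hiL, if_pos rfl]
    omega
  have h3 := h.two i hi hiL
  unfold fdeg at h3
  rw [← Finset.add_sum_erase X _ ha,
    ← Finset.add_sum_erase (X.erase (t (i - 1))) _ (Finset.mem_erase.2 ⟨hab.symm, hb⟩)] at h3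
  by_cases e1 : e = t (i - 1)
  · rw [if_pos e1, if_neg (fun hh => hab (e1 ▸ hh)), e1]
    omega
  · by_cases e2 : e = t i
    · rw [if_neg e1, if_pos e2, e2]
      omega
    · rw [if_neg e1, if_neg e2]
      have := Finset.single_le_sum (f := fun x => inc s x (u i)) (fun _ _ => Nat.zero_le _)
        (Finset.mem_erase.2 ⟨e2, Finset.mem_erase.2 ⟨e1, he⟩⟩)
      omega

omit [Fintype Φ] in
theorem Thr.fdeg_int {s : Bool → α → Φ} {X : Finset α} {L : ℕ} {t : ℕ → α} {u : ℕ → Φ}
    (h : Thr s X L t u) {i : ℕ} (hi : 0 < i) (hiL : i < L) {C : Finset α} (hC : C ⊆ X) :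
    fdeg s C (u i) = (if t (i - 1) ∈ C then 1 else 0) + (if t i ∈ C then 1 else 0) := by
  unfold fdeg
  rw [Finset.sum_congr rfl (fun e he => h.inc_int hi hiL (hC he)), Finset.sum_add_distrib,
    Finset.sum_ite_eq', Finset.sum_ite_eq']

omit [Fintype Φ] in
theorem Thr.int_iff {s : Bool → α → Φ} {X : Finset α} {L : ℕ} {t : ℕ → α} {u : ℕ → Φ}
    (h : Thr s X L t u) {i : ℕ} (hi : 0 < i) (hiL : i < L) {C : Finset α} (hC : C ⊆ X) :
    Even (fdeg s C (u i)) ↔ (t (i - 1) ∈ C ↔ t i ∈ C) := by
  rw [h.fdeg_int hi hiL hC]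
  by_cases a : t (i - 1) ∈ C <;> by_cases b : t i ∈ C <;> simp [a, b]

omit [Fintype Φ] in
theorem Thr.all {s : Bool → α → Φ} {X : Finset α} {L : ℕ} {t : ℕ → α} {u : ℕ → Φ}
    (h : Thr s X L t u) {C : Finset α} (hC : C ⊆ X) (hev : EvenSet s C) {i j : ℕ} (hi : i < L)
    (hj : j < L) (hiC : t i ∈ C) : t j ∈ C := by
  have key : ∀ k, k < L → (t k ∈ C ↔ t 0 ∈ C) := by
    intro k
    induction k with
    | zero => intro _; rfl
    | succ k ih =>
      intro hk
      have h1 : t k ∈ C ↔ t (k + 1) ∈ C := (h.int_iff (Nat.succ_pos k) hk hC).1 (hev _)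
      rw [← h1]
      exact ih (by omega)
  exact (key j hj).2 ((key i hi).1 hiC)

omit [Fintype Φ] in
theorem Thr.inj_int {s : Bool → α → Φ} {X : Finset α} {L : ℕ} {t : ℕ → α} {u : ℕ → Φ}
    (h : Thr s X L t u) {i j : ℕ} (hi : 0 < i) (hiL : i < L) (hj : 0 < j) (hjL : j < L)
    (hij : u i = u j) : i = j := by
  have aux : ∀ {a b : ℕ}, 0 < a → a < L → 0 < b → b < L → u a = u b → a = b - 1 ∨ a = b := by
    intro a b ha haL hb hbL hab
    have h1 := h.inc_int hb hbL (h.mem a haL)
    rw [h.inc_eq haL, if_pos hab] at h1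
    by_cases e1 : t a = t (b - 1)
    · exact Or.inl (h.inj _ haL _ (by omega) e1)
    · by_cases e2 : t a = t b
      · exact Or.inr (h.inj _ haL _ hbL e2)
      · rw [if_neg e1, if_neg e2] at h1
        omega
  have h1 := aux hi hiL hj hjL hij
  have h2 := aux hj hjL hi hiL hij.symm
  omega

theorem Thr.odd_le {s : Bool → α → Φ} {X : Finset α} {L : ℕ} {t : ℕ → α} {u : ℕ → Φ}
    (h : Thr s X L t u) (hL : 1 ≤ L) {C : Finset α} (hC : C ⊆ X) :
    oddF s (C \ thrE t L) + ((Ioc 0 (L - 1)).filter fun i => ¬ (t (i - 1) ∈ C ↔ t i ∈ C)).card ≤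
      oddF s C + ((if t 0 ∈ C then 1 else 0) + (if t (L - 1) ∈ C then 1 else 0)) := by
  classical
  -- interior faces do not meet `C \ thrE`
  have hint : ∀ i, 0 < i → i < L → fdeg s (C \ thrE t L) (u i) = 0 := by
    intro i hi hiL
    rw [h.fdeg_int hi hiL (Finset.sdiff_subset.trans hC)]
    have h1 : t (i - 1) ∉ C \ thrE t L := fun hh =>
      (Finset.mem_sdiff.1 hh).2 (Finset.mem_image_of_mem _ (Finset.mem_range.2 (by omega)))
    have h2 : t i ∉ C \ thrE t L := fun hh =>
      (Finset.mem_sdiff.1 hh).2 (Finset.mem_image_of_mem _ (Finset.mem_range.2 hiL))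
    rw [if_neg h1, if_neg h2]
  set O' := univ.filter (fun φ => ¬ Even (fdeg s (C \ thrE t L) φ)) with hO'
  set O := univ.filter (fun φ => ¬ Even (fdeg s C φ)) with hO
  set I := (Ioc 0 (L - 1)).filter (fun i => ¬ (t (i - 1) ∈ C ↔ t i ∈ C)) with hI
  have hIm : ∀ i ∈ I, 0 < i ∧ i < L ∧ ¬ (t (i - 1) ∈ C ↔ t i ∈ C) := by
    intro i hi
    rw [hI, Finset.mem_filter, Finset.mem_Ioc] at hi
    exact ⟨hi.1.1, by omega, hi.2⟩
  have hcard : (I.image u).card = I.card := by
    apply Finset.card_image_of_injOn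
    intro i hi j hj hij
    have h1 := hIm i (Finset.mem_coe.1 hi)
    have h2 := hIm j (Finset.mem_coe.1 hj)
    exact h.inj_int h1.1 h1.2.1 h2.1 h2.2.1 hij
  have hdisj : Disjoint O' (I.image u) := by
    rw [Finset.disjoint_left]
    intro φ h1 h2
    obtain ⟨i, hi, rfl⟩ := Finset.mem_image.1 h2
    have h3 := hIm i hi
    rw [hO', Finset.mem_filter, hint i h3.1 h3.2.1] at h1
    exact h1.2 (by simp)
  set A : Finset Φ := if t 0 ∈ C then {u 0} else ∅ with hA
  set B : Finset Φ := if t (L - 1) ∈ C then {u L} else ∅ with hB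
  have hsub : O' ∪ I.image u ⊆ O ∪ (A ∪ B) := by
    intro φ hφ
    rcases Finset.mem_union.1 hφ with h1 | h1
    · rw [hO', Finset.mem_filter] at h1
      by_cases hev : Even (fdeg s C φ)
      · -- the thread meets `φ`
        have h2 : fdeg s C φ = fdeg s (C \ (C ∩ thrE t L)) φ + fdeg s (C ∩ thrE t L) φ :=
          fdeg_sdiff s Finset.inter_subset_left φ
        rw [Finset.sdiff_inter_self_left] at h2
        have h3 : fdeg s (C ∩ thrE t L) φ ≠ 0 := by
          intro h0
          rw [h0, add_zero] at h2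
          exact h1.2 (h2 ▸ hev)
        obtain ⟨e, he, he0⟩ := Finset.exists_ne_zero_of_sum_ne_zero h3
        rw [Finset.mem_inter] at he
        obtain ⟨i, hi, rfl⟩ := Finset.mem_image.1 he.2
        rw [Finset.mem_range] at hi
        rw [h.inc_eq hi] at he0
        have hno : ∀ j, 0 < j → j < L → u j ≠ φ := by
          intro j hj hjL hjφ
          apply h1.2
          rw [← hjφ, hint j hj hjL]
          simp
        by_cases e1 : u i = φ
        · have hi0 : i = 0 := by
            by_contra hne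
            exact hno i (Nat.pos_of_ne_zero hne) hi e1
          subst hi0
          apply Finset.mem_union_right
          apply Finset.mem_union_left
          rw [hA, if_pos he.1, Finset.mem_singleton]
          exact e1.symm
        · by_cases e2 : u (i + 1) = φ
          · have hi1 : i + 1 = L := by
              by_contra hne
              exact hno (i + 1) (Nat.succ_pos i) (by omega) e2
            have hi2 : L - 1 = i := by omega
            apply Finset.mem_union_right
            apply Finset.mem_union_right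
            rw [hB, hi2, if_pos he.1, Finset.mem_singleton, ← hi1]
            exact e2.symm
          · rw [if_neg e1, if_neg e2] at he0
            exact absurd rfl he0
      · apply Finset.mem_union_left
        rw [hO, Finset.mem_filter]
        exact ⟨Finset.mem_univ _, hev⟩
    · obtain ⟨i, hi, rfl⟩ := Finset.mem_image.1 h1
      have h3 := hIm i hi
      apply Finset.mem_union_left
      rw [hO, Finset.mem_filter, h.int_iff h3.1 h3.2.1 hC]
      exact ⟨Finset.mem_univ _, h3.2.2⟩
  have hAc : A.card ≤ (if t 0 ∈ C then 1 else 0) := by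
    rw [hA]
    split_ifs <;> simp
  have hBc : B.card ≤ (if t (L - 1) ∈ C then 1 else 0) := by
    rw [hB]
    split_ifs <;> simp
  have h1 := Finset.card_le_card hsub
  rw [Finset.card_union_of_disjoint hdisj, hcard] at h1
  have h2 := Finset.card_union_le O (A ∪ B)
  have h3 := Finset.card_union_le A B
  have h4 : oddF s (C \ thrE t L) = O'.card := rfl
  have h5 : oddF s C = O.card := rfl
  rw [h4, h5]
  omega

end Pool.Agent.H89P
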