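import Pool.Agent.H89P.Seq
import Pool.Agent.H89P.Thr

/-!
MP_e3de44_co, P3: the three reduction steps.
-/

set_option autoImplicit false

namespace Pool.Agent.H89P

open Finset

variable {α Φ ι : Type} [DecidableEq α] [Fintype Φ] [DecidableEq Φ] [Fintype ι] [DecidableEq ι]

private theorem fdeg_eq_zero {s : Bool → α → Φ} {X : Finset α} {φ : Φ} (h : fdeg s X φ = 0)
    {e : α} (he : e ∈ X) : inc s e φ = 0 := by
  unfold fdeg at h
  exact Finset.sum_eq_zero_iff.1 h e he

private theorem fdeg_erase (s : Bool → α → Φ) {C : Finset α} {e : α} (he : e ∈ C) (φ : Φ) :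
    fdeg s C φ = fdeg s (C.erase e) φ + inc s e φ := by
  unfold fdeg
  rw [Finset.sum_erase_add _ _ he]

private theorem filter_ch_eq {B : Finset (Finset α)} {ch : Finset α → α} {C C' : Finset α}
    (h : ∀ F ∈ B, (ch F ∈ C ↔ ch F ∈ C')) :
    (B.filter fun F => ch F ∈ C) = B.filter fun F => ch F ∈ C' :=
  Finset.filter_congr h

/-- removal of an edge which is the only one at some face -/
theorem bun_pendant {E : Finset α} {p q : α → ι} {s : Bool → α → Φ} {D L : ℕ} {X : Finset α}
    (hev : ∀ A : Finset ι, EvenSet s (cutE E p q A)) {φ : Φ} (hφ : fdeg s X φ = 1) {e : α}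
    (he : e ∈ X) (heφ : 0 < inc s e φ) (h : Bun E p q s D L (X.erase e)) :
    Bun E p q s D L X := by
  obtain ⟨B, R, ZZ, h1, h2, h3, h4, h5, h6, h7⟩ := h
  have hsub : X.erase e ⊆ X := Finset.erase_subset _ _
  have hX := fdeg_erase s he φ
  have hinc : inc s e φ = 1 := by omega
  have hX0 : fdeg s (X.erase e) φ = 0 := by omega
  -- the degree of a subset at `φ`
  have hC1 : ∀ C ⊆ X, e ∈ C → fdeg s C φ = 1 := by
    intro C hC heC
    have h8 := fdeg_erase s heC φ
    have h9 : fdeg s (C.erase e) φ ≤ fdeg s (X.erase e) φ :=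
      fdeg_mono s (Finset.erase_subset_erase e hC) φ
    omega
  have hC0 : ∀ C ⊆ X, fdeg s (C.erase e) φ = 0 := by
    intro C hC
    have h9 : fdeg s (C.erase e) φ ≤ fdeg s (X.erase e) φ :=
      fdeg_mono s (Finset.erase_subset_erase e hC) φ
    omega
  -- the other side of `e`
  obtain ⟨ψ, hψ⟩ : ∃ ψ, ∀ θ, θ ≠ φ → θ ≠ ψ → inc s e θ = 0 := by
    unfold inc at hinc
    by_cases h8 : s false e = φ
    · refine ⟨s true e, fun θ h9 h10 => ?_⟩
      unfold inc
      rw [if_neg (by rw [h8]; exact fun h => h9 h.symm), if_neg (fun h => h10 h.symm)]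
    · refine ⟨s false e, fun θ h9 h10 => ?_⟩
      rw [if_neg h8] at hinc
      have h11 : s true e = φ := by
        by_contra h12
        rw [if_neg h12] at hinc
        omega
      unfold inc
      rw [if_neg (fun h => h10 h.symm), if_neg (by rw [h11]; exact fun h => h9 h.symm)]
  refine ⟨B, R, ZZ, fun F hF => ⟨(h1 F hF).1.trans hsub, (h1 F hF).2⟩, h2, h3.trans hsub, h4,
    fun Z hZ => ⟨(h5 Z hZ).1.trans hsub, (h5 Z hZ).2⟩, h6, fun ch hch => ?_⟩
  obtain ⟨h8, h9⟩ := h7 ch hch
  refine ⟨fun C hC => ?_, fun A hA hne => ?_⟩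
  · by_cases heC : e ∈ C
    · have h10 := h8 (C.erase e) (Finset.erase_subset_erase e hC)
      have h11 : (B.filter fun F => ch F ∈ C) = B.filter fun F => ch F ∈ C.erase e := by
        refine filter_ch_eq fun F hF => ?_
        have h12 : ch F ∈ X.erase e := (h1 F hF).1 (hch F hF)
        have h13 : ch F ≠ e := (Finset.mem_erase.1 h12).1
        simp [Finset.mem_erase, h13]
      have h12 : (C.erase e).card ≤ C.card := Finset.card_le_card (Finset.erase_subset _ _)
      have h13 : oddF s (C.erase e) ≤ oddF s C := by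
        unfold oddF
        -- the odd faces of `C.erase e` other than `ψ` are odd faces of `C` other than `φ`
        have h14 : (univ.filter fun θ => ¬ Even (fdeg s (C.erase e) θ)) ⊆
            insert ψ ((univ.filter fun θ => ¬ Even (fdeg s C θ)).erase φ) := by
          intro θ hθ
          rw [Finset.mem_insert, Finset.mem_erase, Finset.mem_filter]
          by_cases h15 : θ = ψ
          · exact Or.inl h15
          · right
            have h16 := (Finset.mem_filter.1 hθ).2
            have h17 : θ ≠ φ := by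
              rintro rfl
              rw [hC0 C hC] at h16
              exact h16 (by simp)
            refine ⟨h17, mem_univ _, ?_⟩
            rw [fdeg_erase s heC θ, hψ θ h17 h15, add_zero]
            exact h16
        have h15 : φ ∈ (univ.filter fun θ => ¬ Even (fdeg s C θ)) := by
          rw [Finset.mem_filter, hC1 C hC heC]
          exact ⟨mem_univ _, by simp⟩
        have h16 := Finset.card_le_card h14
        have h17 := Finset.card_insert_le ψ ((univ.filter fun θ => ¬ Even (fdeg s C θ)).erase φ)
        have h18 := Finset.card_erase_add_one h15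
        omega
      rw [h11]
      have h14 : D * oddF s (C.erase e) ≤ D * oddF s C := Nat.mul_le_mul_left _ h13
      omega
    · have hC' : C ⊆ X.erase e := fun x hx =>
        Finset.mem_erase.2 ⟨fun h => heC (h ▸ hx), hC hx⟩
      exact h8 C hC'
  · have heA : e ∉ cutE E p q A := by
      intro heA
      have h10 := hev A φ
      rw [hC1 _ hA heA] at h10
      exact absurd h10 (by simp)
    exact h9 A (fun x hx => Finset.mem_erase.2 ⟨fun h => heA (h ▸ hx), hA hx⟩) hne

/-- removal of a thread with `3 D` edges; the middle third is a new bundle -/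
theorem bun_thread {E : Finset α} {p q : α → ι} {s : Bool → α → Φ} {D L : ℕ} (hD : 1 ≤ D)
    {X : Finset α} (hev : ∀ A : Finset ι, EvenSet s (cutE E p q A)) {t : ℕ → α} {u : ℕ → Φ}
    (ht : Thr s X (3 * D) t u) (h : Bun E p q s D L (X \ thrE t (3 * D))) :
    Bun E p q s D L X := by
  classical
  obtain ⟨B, R, ZZ, h1, h2, h3, h4, h5, h6, h7⟩ := h
  have hsub : X \ thrE t (3 * D) ⊆ X := Finset.sdiff_subset
  have hinj : Set.InjOn t (Set.Iio (3 * D)) := fun i hi j hj hij => ht.inj i hi j hj hij
  set F₀ : Finset α := (Ico D (2 * D)).image t with hF₀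
  have hF₀T : F₀ ⊆ thrE t (3 * D) := by
    intro x hx
    rw [hF₀, Finset.mem_image] at hx
    obtain ⟨i, hi, rfl⟩ := hx
    rw [Finset.mem_Ico] at hi
    unfold thrE
    exact Finset.mem_image.2 ⟨i, Finset.mem_range.2 (by omega), rfl⟩
  have hTX : thrE t (3 * D) ⊆ X := by
    intro x hx
    unfold thrE at hx
    obtain ⟨i, hi, rfl⟩ := Finset.mem_image.1 hx
    exact ht.mem i (Finset.mem_range.1 hi)
  have hF₀c : F₀.card = D := by
    rw [hF₀, Finset.card_image_of_injOn, Nat.card_Ico]
    · omega
    · intro i hi j hj hij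
      have hi' := Finset.mem_Ico.1 (Finset.mem_coe.1 hi)
      have hj' := Finset.mem_Ico.1 (Finset.mem_coe.1 hj)
      exact ht.inj i (by omega) j (by omega) hij
  have hdis : ∀ F ∈ B, Disjoint F F₀ := by
    intro F hF
    rw [Finset.disjoint_left]
    intro x hx hx0
    exact (Finset.mem_sdiff.1 ((h1 F hF).1 hx)).2 (hF₀T hx0)
  have hF₀B : F₀ ∉ B := by
    intro hmem
    have h8 := hdis F₀ hmem
    rw [Finset.disjoint_self_iff_empty] at h8
    rw [h8, Finset.card_empty] at hF₀c
    omega
  refine ⟨insert F₀ B, R, ZZ, ?_, ?_, h3.trans hsub, h4,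
    fun Z hZ => ⟨(h5 Z hZ).1.trans hsub, (h5 Z hZ).2⟩, h6, fun ch hch => ?_⟩
  · intro F hF
    rcases Finset.mem_insert.1 hF with rfl | hF
    · exact ⟨hF₀T.trans hTX, hF₀c⟩
    · exact ⟨(h1 F hF).1.trans hsub, (h1 F hF).2⟩
  · rw [Finset.coe_insert]
    refine (Set.pairwiseDisjoint_insert_of_notMem (by exact_mod_cast hF₀B)).2 ⟨h2, ?_⟩
    intro F hF
    exact (hdis F (Finset.mem_coe.1 hF)).symm
  · have hch0 := hch F₀ (Finset.mem_insert_self _ _)
    obtain ⟨m, hm, hmt⟩ := Finset.mem_image.1 (hF₀ ▸ hch0)
    rw [Finset.mem_Ico] at hm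
    obtain ⟨h8, h9⟩ := h7 ch fun F hF => hch F (Finset.mem_insert_of_mem hF)
    refine ⟨fun C hC => ?_, fun A hA hne => ?_⟩
    · have h10 := h8 (C \ thrE t (3 * D)) (Finset.sdiff_subset_sdiff hC (Finset.Subset.refl _))
      have h11 : (B.filter fun F => ch F ∈ C) =
          B.filter fun F => ch F ∈ C \ thrE t (3 * D) := by
        refine filter_ch_eq fun F hF => ?_
        have h12 : ch F ∈ X \ thrE t (3 * D) :=
          (h1 F hF).1 (hch F (Finset.mem_insert_of_mem hF))
        have h13 : ch F ∉ thrE t (3 * D) := (Finset.mem_sdiff.1 h12).2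
        simp [Finset.mem_sdiff, h13]
      have h12 := ht.odd_le (by omega) hC
      have h13 : ((insert F₀ B).filter fun F => ch F ∈ C).card =
          (B.filter fun F => ch F ∈ C \ thrE t (3 * D)).card + (if t m ∈ C then 1 else 0) := by
        rw [Finset.filter_insert, ← hmt, ← h11]
        by_cases h14 : t m ∈ C
        · rw [if_pos h14, if_pos h14, Finset.card_insert_of_notMem]
          intro h15
          exact hF₀B (Finset.mem_filter.1 h15).1
        · rw [if_neg h14, if_neg h14, add_zero]
      -- the edges of the thread in `C`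
      have h14 : C.card = (C \ thrE t (3 * D)).card +
          ((range (3 * D)).filter fun i => t i ∈ C).card := by
        have h15 : C ∩ thrE t (3 * D) = ((range (3 * D)).filter fun i => t i ∈ C).image t := by
          ext x
          unfold thrE
          simp only [Finset.mem_inter, Finset.mem_image, Finset.mem_filter]
          constructor
          · rintro ⟨hx, i, hi, rfl⟩
            exact ⟨i, ⟨hi, hx⟩, rfl⟩
          · rintro ⟨i, ⟨hi, hx⟩, rfl⟩
            exact ⟨hx, i, hi, rfl⟩
        have h16 : (C ∩ thrE t (3 * D)).card =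
            ((range (3 * D)).filter fun i => t i ∈ C).card := by
          rw [h15, Finset.card_image_of_injOn]
          intro i hi j hj hij
          have hi' := Finset.mem_range.1 (Finset.mem_filter.1 (Finset.mem_coe.1 hi)).1
          have hj' := Finset.mem_range.1 (Finset.mem_filter.1 (Finset.mem_coe.1 hj)).1
          exact ht.inj i hi' j hj' hij
        rw [← h16]
        exact (Finset.card_sdiff_add_card_inter C (thrE t (3 * D))).symm
      have h15 := half (fun i => t i ∈ C) (a := 0) (b := m) (D := D) (Nat.zero_le m) (Ico 0 m)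
        (fun i hi => by rw [Finset.mem_Ico] at hi; rw [Finset.mem_Icc]; omega)
        (by rw [Nat.card_Ico]; omega)
      have h16 := half (fun i => t i ∈ C) (a := m) (b := 3 * D - 1) (D := D) (by omega)
        (Ioc m (3 * D - 1))
        (fun i hi => by rw [Finset.mem_Ioc] at hi; rw [Finset.mem_Icc]; omega)
        (by rw [Nat.card_Ioc]; omega)
      have h17 : ((Ioc 0 (3 * D - 1)).filter fun i => ¬ (t (i - 1) ∈ C ↔ t i ∈ C)).card =
          ((Ioc 0 m).filter fun i => ¬ (t (i - 1) ∈ C ↔ t i ∈ C)).card +
          ((Ioc m (3 * D - 1)).filter fun i => ¬ (t (i - 1) ∈ C ↔ t i ∈ C)).card := by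
        rw [← Finset.card_union_of_disjoint, ← Finset.filter_union,
          Finset.Ioc_union_Ioc_eq_Ioc (Nat.zero_le m) (by omega)]
        refine Finset.disjoint_filter_filter ?_
        rw [Finset.disjoint_left]
        intro i hi hi'
        rw [Finset.mem_Ioc] at hi hi'
        omega
      have h18 : ((range (3 * D)).filter fun i => t i ∈ C).card =
          ((Ico 0 m).filter fun i => t i ∈ C).card + (if t m ∈ C then 1 else 0) +
          ((Ioc m (3 * D - 1)).filter fun i => t i ∈ C).card := by
        have h19 : range (3 * D) = (Ico 0 m ∪ {m}) ∪ Ioc m (3 * D - 1) := by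
          ext i
          simp only [Finset.mem_range, Finset.mem_union, Finset.mem_Ico, Finset.mem_singleton,
            Finset.mem_Ioc]
          omega
        rw [h19, Finset.filter_union, Finset.filter_union, Finset.card_union_of_disjoint,
          Finset.card_union_of_disjoint, Finset.filter_singleton]
        · congr 2
          split_ifs <;> simp
        · refine Finset.disjoint_filter_filter ?_
          rw [Finset.disjoint_left]
          intro i hi hi'
          rw [Finset.mem_Ico] at hi
          rw [Finset.mem_singleton] at hi'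
          omega
        · rw [← Finset.filter_union]
          refine Finset.disjoint_filter_filter ?_
          rw [Finset.disjoint_left]
          intro i hi hi'
          rw [Finset.mem_union, Finset.mem_Ico, Finset.mem_singleton] at hi
          rw [Finset.mem_Ioc] at hi'
          omega
      rw [h13]
      set cm : ℕ := if t m ∈ C then 1 else 0 with hcm
      set c0 : ℕ := if t 0 ∈ C then 1 else 0 with hc0
      set cL : ℕ := if t (3 * D - 1) ∈ C then 1 else 0 with hcL
      have h19 := Nat.mul_le_mul_left D h12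
      rw [h17] at h19
      have h20 : D * (c0 + cm) ≤ 2 * ((Ico 0 m).filter fun i => t i ∈ C).card +
          D * ((Ioc 0 m).filter fun i => ¬ (t (i - 1) ∈ C ↔ t i ∈ C)).card := h15
      have h21 : D * (cm + cL) ≤ 2 * ((Ioc m (3 * D - 1)).filter fun i => t i ∈ C).card +
          D * ((Ioc m (3 * D - 1)).filter fun i => ¬ (t (i - 1) ∈ C ↔ t i ∈ C)).card := h16
      generalize ((Ioc 0 m).filter fun i => ¬ (t (i - 1) ∈ C ↔ t i ∈ C)).card = w1 at h19 h20
      generalize ((Ioc m (3 * D - 1)).filter fun i => ¬ (t (i - 1) ∈ C ↔ t i ∈ C)).card = w2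
        at h19 h21
      generalize ((Ico 0 m).filter fun i => t i ∈ C).card = a1 at h18 h20
      generalize ((Ioc m (3 * D - 1)).filter fun i => t i ∈ C).card = a2 at h18 h21
      rw [h18] at h14
      rw [h14]
      nlinarith [h10, h19, h20, h21]
    · by_cases h10 : ∃ i, i < 3 * D ∧ t i ∈ cutE E p q A
      · obtain ⟨i, hi, hiA⟩ := h10
        left
        refine ⟨F₀, Finset.mem_insert_self _ _, ?_⟩
        rw [← hmt]
        exact ht.all hA (hev A) hi (by omega) hiA
      · have h11 : cutE E p q A ⊆ X \ thrE t (3 * D) := by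
          intro x hx
          rw [Finset.mem_sdiff]
          refine ⟨hA hx, fun hxt => h10 ?_⟩
          unfold thrE at hxt
          obtain ⟨i, hi, rfl⟩ := Finset.mem_image.1 hxt
          exact ⟨i, Finset.mem_range.1 hi, hx⟩
        rcases h9 A h11 hne with ⟨F, hF, hFA⟩ | h12
        · exact Or.inl ⟨F, Finset.mem_insert_of_mem hF, hFA⟩
        · exact Or.inr h12

/-- removal of a short closed thread; one of its edges goes to `R` -/
theorem bun_closed {E : Finset α} {p q : α → ι} {s : Bool → α → Φ} {D L : ℕ} {X Z : Finset α}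
    (hev : ∀ A : Finset ι, EvenSet s (cutE E p q A)) (hZ : Clo s X Z) (hZL : Z.card < L)
    (h : Bun E p q s D L (X \ Z)) : Bun E p q s D L X := by
  classical
  obtain ⟨B, R, ZZ, h1, h2, h3, h4, h5, h6, h7⟩ := h
  have hsub : X \ Z ⊆ X := Finset.sdiff_subset
  obtain ⟨z, hz⟩ := hZ.ne
  have hdis : ∀ W ∈ ZZ, Disjoint W Z := by
    intro W hW
    rw [Finset.disjoint_left]
    intro x hx hxZ
    exact (Finset.mem_sdiff.1 ((h5 W hW).1 hx)).2 hxZ
  have hZZ : Z ∉ ZZ := by
    intro hmem
    have h8 := hdis Z hmem
    rw [Finset.disjoint_self_iff_empty] at h8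
    rw [h8] at hz
    exact absurd hz (Finset.notMem_empty z)
  refine ⟨B, insert z R, insert Z ZZ, fun F hF => ⟨(h1 F hF).1.trans hsub, (h1 F hF).2⟩, h2,
    ?_, ?_, ?_, ?_, fun ch hch => ?_⟩
  · intro x hx
    rcases Finset.mem_insert.1 hx with rfl | hx
    · exact hZ.sub hz
    · exact hsub (h3 hx)
  · rw [Finset.card_insert_of_notMem hZZ]
    have h8 := Finset.card_insert_le z R
    omega
  · intro W hW
    rcases Finset.mem_insert.1 hW with rfl | hW
    · exact ⟨hZ.sub, hZ.ne, hZ.even, hZL⟩
    · exact ⟨(h5 W hW).1.trans hsub, (h5 W hW).2⟩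
  · rw [Finset.coe_insert]
    refine (Set.pairwiseDisjoint_insert_of_notMem (by exact_mod_cast hZZ)).2 ⟨h6, ?_⟩
    intro W hW
    exact (hdis W (Finset.mem_coe.1 hW)).symm
  · obtain ⟨h8, h9⟩ := h7 ch hch
    refine ⟨fun C hC => ?_, fun A hA hne => ?_⟩
    · have h10 := h8 (C \ Z) (Finset.sdiff_subset_sdiff hC (Finset.Subset.refl _))
      have h11 : (B.filter fun F => ch F ∈ C) = B.filter fun F => ch F ∈ C \ Z := by
        refine filter_ch_eq fun F hF => ?_
        have h12 : ch F ∈ X \ Z := (h1 F hF).1 (hch F hF)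
        have h13 : ch F ∉ Z := (Finset.mem_sdiff.1 h12).2
        simp [Finset.mem_sdiff, h13]
      have h12 : (C \ Z).card ≤ C.card := Finset.card_le_card Finset.sdiff_subset
      have h13 : oddF s (C \ Z) ≤ oddF s C := by
        unfold oddF
        refine Finset.card_le_card fun θ hθ => ?_
        rw [Finset.mem_filter] at hθ ⊢
        refine ⟨mem_univ _, ?_⟩
        have h14 : 0 < fdeg s (C \ Z) θ := by
          rcases Nat.eq_zero_or_pos (fdeg s (C \ Z) θ) with h15 | h15
          · rw [h15] at hθ
            exact absurd (by simp) hθ.2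
          · exact h15
        have h15 : fdeg s (C \ Z) θ ≤ fdeg s (X \ Z) θ :=
          fdeg_mono s (Finset.sdiff_subset_sdiff hC (Finset.Subset.refl _)) θ
        have h16 : fdeg s Z θ = 0 := by
          by_contra h17
          have h18 := hZ.iso θ (Nat.pos_of_ne_zero h17)
          omega
        have h17 : fdeg s C θ = fdeg s (C \ Z) θ := by
          have h18 := fdeg_sdiff s (C := C) (Z := C ∩ Z) Finset.inter_subset_left θ
          have h19 : fdeg s (C ∩ Z) θ ≤ fdeg s Z θ := fdeg_mono s Finset.inter_subset_right θ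
          have h20 : C \ (C ∩ Z) = C \ Z := by
            ext x
            simp only [Finset.mem_sdiff, Finset.mem_inter]
            tauto
          rw [h20] at h18
          omega
        rw [h17]
        exact hθ.2
      rw [h11]
      have h14 : D * oddF s (C \ Z) ≤ D * oddF s C := Nat.mul_le_mul_left _ h13
      omega
    · rcases hZ.all _ hA (hev A) with h10 | h10
      · exact Or.inr ⟨z, Finset.mem_insert_self _ _, h10 hz⟩
      · have h11 : cutE E p q A ⊆ X \ Z := by
          intro x hx
          rw [Finset.mem_sdiff]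
          exact ⟨hA hx, fun hxZ => (Finset.disjoint_left.1 h10) hxZ hx⟩
        rcases h9 A h11 hne with h12 | ⟨e, he, heA⟩
        · exact Or.inl h12
        · exact Or.inr ⟨e, Finset.mem_insert_of_mem he, heA⟩

end Pool.Agent.H89P
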