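import Pool.Agent.H89P.Basic
import Pool.Agent.H89P.Step
import Pool.Agent.H89P.Orbit
import Pool.Agent.H89P.Euler
import Pool.Agent.H89P.Comp
import Pool.Agent.H89P.Few

set_option autoImplicit false

namespace Pool.Agent.H89P

open Finset

variable {α Φ ι : Type} [DecidableEq α] [Fintype Φ] [DecidableEq Φ] [Fintype ι] [DecidableEq ι]

theorem inc_pos_of {s : Bool → α → Φ} {X : Finset α} {φ : Φ} (h : fdeg s X φ = 1) :
    ∃ e ∈ X, 0 < inc s e φ := by
  by_contra hcon
  push Not at hcon
  have : fdeg s X φ = 0 := Finset.sum_eq_zero fun e he => Nat.le_zero.1 (hcon e he)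
  omega

theorem bun_all {E : Finset α} {p q : α → ι} {s : Bool → α → Φ} {k g D : ℕ}
    (h : Surf E p q s k g) (hD : 1 ≤ D) (hk : (18 + 9 * g) * D ≤ k) [Nonempty ι] (n : ℕ) :
    ∀ X ⊆ E, X.card = n → Bun E p q s D (3 * D) X := by
  classical
  induction n using Nat.strong_induction_on with
  | _ n ih =>
    intro X hX hn
    by_cases hcut : ∃ A : Finset ι, cutE E p q A ⊆ X ∧ (cutE E p q A).Nonempty
    swap
    · refine ⟨∅, ∅, ∅, by simp, by simp, by simp, by simp, by simp, by simp, fun ch _ => ?_⟩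
      refine ⟨fun C _ => by simp, fun A hA hA' => ?_⟩
      exact absurd ⟨A, hA, hA'⟩ hcut
    by_cases hpend : ∃ φ, fdeg s X φ = 1
    · obtain ⟨φ, hφ⟩ := hpend
      obtain ⟨e, he, hinc⟩ := inc_pos_of hφ
      refine bun_pendant h.even hφ he hinc ?_
      exact ih _ (by rw [← hn]; exact Finset.card_erase_lt_of_mem he) _
        ((Finset.erase_subset _ _).trans hX) rfl
    push Not at hpend
    rcases orbit s X (L := 3 * D) (by omega) with ⟨t, u, ht⟩ | ⟨Z, hZ, hZL⟩ | hcount
    · refine bun_thread hD h.even ht ?_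
      have hsub : X \ thrE t (3 * D) ⊂ X := by
        refine Finset.ssubset_iff_subset_ne.2 ⟨Finset.sdiff_subset, fun heq => ?_⟩
        have h0 : t 0 ∈ X := ht.mem 0 (by omega)
        rw [← heq] at h0
        refine (Finset.mem_sdiff.1 h0).2 (Finset.mem_image.2 ⟨0, Finset.mem_range.2 (by omega), rfl⟩)
      exact ih _ (by rw [← hn]; exact Finset.card_lt_card hsub) _
        (Finset.sdiff_subset.trans hX) rfl
    · refine bun_closed h.even hZ hZL ?_
      have hsub : X \ Z ⊂ X := by
        refine Finset.ssubset_iff_subset_ne.2 ⟨Finset.sdiff_subset, fun heq => ?_⟩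
        obtain ⟨z, hz⟩ := hZ.ne
        have h0 : z ∈ X := hZ.sub hz
        rw [← heq] at h0
        exact (Finset.mem_sdiff.1 h0).2 hz
      exact ih _ (by rw [← hn]; exact Finset.card_lt_card hsub) _
        (Finset.sdiff_subset.trans hX) rfl
    · exfalso
      have hXne : X.Nonempty := by
        obtain ⟨A, hA, hA'⟩ := hcut
        exact hA'.mono hA
      obtain ⟨hn2, hkn⟩ := mul_cls_le (E := E) (p := p) (q := q) hX h.conn hcut
      have hcuts := card_cuts_le E p q (X := X)
      have hev := card_even_le h hX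
      set m := Nat.card (Cls E X p q) with hm
      have hN : (X.powerset.filter fun C => ∀ φ, Even (fdeg s C φ)).card ≤ 2 ^ (g + (m - 1)) := by
        refine hev.trans ?_
        rw [pow_add]
        refine Nat.mul_le_mul_left _ ?_
        have h2 : 2 ^ m = 2 ^ (m - 1) * 2 := by
          rw [← pow_succ]
          congr 1
          omega
        rw [h2] at hcuts
        exact Nat.le_of_mul_le_mul_right hcuts (by norm_num)
      have heu := euler s hXne hpend hN
      -- the count
      have h1 : stops s X ≤ 6 * (g + m - 2) := by omega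
      have h2 : 2 * X.card ≤ 6 * (g + m - 2) * (3 * D) :=
        hcount.trans (Nat.mul_le_mul_right _ h1)
      have h3 : (18 + 9 * g) * D * m ≤ 2 * X.card := (Nat.mul_le_mul_right _ hk).trans hkn
      have h4 : 6 * (g + m - 2) * 3 < (18 + 9 * g) * m := by
        have h5 : 9 * g * 2 ≤ 9 * g * m := Nat.mul_le_mul_left _ hn2
        have h6 : (18 + 9 * g) * m = 18 * m + 9 * g * m := by ring
        omega
      have h7 : 6 * (g + m - 2) * 3 * D < (18 + 9 * g) * m * D :=
        Nat.mul_lt_mul_of_pos_right h4 (by omega)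
      have h8 : 6 * (g + m - 2) * (3 * D) = 6 * (g + m - 2) * 3 * D := by ring
      have h9 : (18 + 9 * g) * D * m = (18 + 9 * g) * m * D := by ring
      omega

theorem bundles {E : Finset α} {p q : α → ι} {s : Bool → α → Φ} {k g D : ℕ}
    (h : Surf E p q s k g) (hD : 1 ≤ D) (hk : (18 + 9 * g) * D ≤ k) [Nonempty ι] :
    ∃ (B : Finset (Finset α)) (R : Finset α),
      (∀ F ∈ B, F ⊆ E ∧ F.card = D) ∧ (B : Set (Finset α)).PairwiseDisjoint id ∧
      R ⊆ E ∧ R.card ≤ g ∧
      ∀ ch : Finset α → α, (∀ F ∈ B, ch F ∈ F) →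
        (∀ A : Finset ι, D * (B.filter fun F => ch F ∈ cutE E p q A).card ≤
          (cutE E p q A).card) ∧
        ∀ A : Finset ι, A.Nonempty → A ≠ univ →
          (∃ F ∈ B, ch F ∈ cutE E p q A) ∨ ∃ e ∈ R, e ∈ cutE E p q A := by
  obtain ⟨B, R, ZZ, h1, h2, h3, h4, h5, h6, h7⟩ := bun_all h hD hk E.card E subset_rfl rfl
  have hk0 : 0 < k := by
    have : 1 * 1 ≤ (18 + 9 * g) * D := Nat.mul_le_mul (by omega) hD
    omega
  refine ⟨B, R, h1, h2, h3, h4.trans (card_short_le h (L := 3 * D) ?_ ZZ h5 h6), fun ch hch => ?_⟩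
  · calc (g + 1) * (3 * D) = (3 + 3 * g) * D := by ring
      _ ≤ (18 + 9 * g) * D := Nat.mul_le_mul_right _ (by omega)
      _ ≤ k := hk
  obtain ⟨h8, h9⟩ := h7 ch hch
  refine ⟨fun A => ?_, fun A hA hA' => ?_⟩
  · have h10 := h8 (cutE E p q A) (Finset.filter_subset _ _)
    have h11 : oddF s (cutE E p q A) = 0 := by
      unfold oddF
      rw [Finset.card_eq_zero, Finset.filter_eq_empty_iff]
      intro φ _ hφ
      exact hφ (h.even A φ)
    rw [h11, mul_zero, add_zero, mul_assoc] at h10
    omega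
  · refine h9 A (Finset.filter_subset _ _) ?_
    rw [← Finset.card_pos]
    exact lt_of_lt_of_le hk0 (h.conn A hA hA')

end Pool.Agent.H89P
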