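import Pool.Agent.H89P.Defs

/-! Module P1: half of a thread. -/

set_option autoImplicit false

namespace Pool.Agent.H89P

open Finset

private theorem exists_change (c : ℕ → Prop) {a z : ℕ} (haz : a ≤ z) (h : ¬ (c a ↔ c z)) :
    ∃ i ∈ Ioc a z, ¬ (c (i - 1) ↔ c i) := by
  induction z, haz using Nat.le_induction with
  | base => exact absurd Iff.rfl h
  | succ z hz ih =>
    by_cases h1 : c a ↔ c z
    · refine ⟨z + 1, mem_Ioc.2 ⟨by omega, le_rfl⟩, ?_⟩
      rw [Nat.add_sub_cancel, ← h1]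
      exact h
    · obtain ⟨i, hi, hc⟩ := ih h1
      exact ⟨i, mem_Ioc.2 ⟨(mem_Ioc.1 hi).1, (mem_Ioc.1 hi).2.trans (Nat.le_succ _)⟩, hc⟩

theorem half (c : ℕ → Prop) [DecidablePred c] {a b D : ℕ} (hab : a ≤ b) (S : Finset ℕ)
    (hS : S ⊆ Icc a b) (hD : D ≤ S.card) :
    D * ((if c a then 1 else 0) + (if c b then 1 else 0)) ≤
      2 * (S.filter c).card + D * ((Ioc a b).filter fun i => ¬ (c (i - 1) ↔ c i)).card := by
  by_cases hall : ∀ i ∈ Icc a b, c i
  · have h1 : S.filter c = S := filter_true_of_mem fun i hi => hall i (hS hi)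
    rw [h1]
    have h2 : (if c a then 1 else 0) + (if c b then 1 else 0) ≤ 2 := by
      split_ifs <;> omega
    calc D * ((if c a then 1 else 0) + (if c b then 1 else 0)) ≤ D * 2 := Nat.mul_le_mul_left _ h2
      _ ≤ 2 * S.card := by omega
      _ ≤ _ := Nat.le_add_right _ _
  · push Not at hall
    obtain ⟨z, hz, hcz⟩ := hall
    obtain ⟨haz, hzb⟩ := mem_Icc.1 hz
    have h1 : (if c a then 1 else 0) ≤ ((Ioc a z).filter fun i => ¬ (c (i - 1) ↔ c i)).card := by
      split_ifs with hca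
      · obtain ⟨i, hi, hc⟩ := exists_change c haz (fun h => hcz (h.1 hca))
        exact card_pos.2 ⟨i, mem_filter.2 ⟨hi, hc⟩⟩
      · exact Nat.zero_le _
    have h2 : (if c b then 1 else 0) ≤ ((Ioc z b).filter fun i => ¬ (c (i - 1) ↔ c i)).card := by
      split_ifs with hcb
      · obtain ⟨i, hi, hc⟩ := exists_change c hzb (fun h => hcz (h.2 hcb))
        exact card_pos.2 ⟨i, mem_filter.2 ⟨hi, hc⟩⟩
      · exact Nat.zero_le _
    have h3 : ((Ioc a z).filter fun i => ¬ (c (i - 1) ↔ c i)).card +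
        ((Ioc z b).filter fun i => ¬ (c (i - 1) ↔ c i)).card ≤
        ((Ioc a b).filter fun i => ¬ (c (i - 1) ↔ c i)).card := by
      rw [← card_union_of_disjoint, ← filter_union, Ioc_union_Ioc_eq_Ioc haz hzb]
      rw [disjoint_left]
      intro i hi hi'
      have h4 := (mem_Ioc.1 (mem_filter.1 hi).1).2
      have h5 := (mem_Ioc.1 (mem_filter.1 hi').1).1
      omega
    calc D * ((if c a then 1 else 0) + (if c b then 1 else 0)) ≤
        D * ((Ioc a b).filter fun i => ¬ (c (i - 1) ↔ c i)).card :=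
          Nat.mul_le_mul_left _ ((Nat.add_le_add h1 h2).trans h3)
      _ ≤ _ := Nat.le_add_left _ _

end Pool.Agent.H89P
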